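import Pool.Agent.Y5.D.Stm

/-!
Tools for the project NS/D (jobs S_HK, S_PERT).
-/

open Set Filter Topology

set_option autoImplicit false
set_option linter.all false

namespace Pool.Agent.Y494.ND

open Pool.Agent.Y5.D

/-- term by term differentiation on a convex set -/
theorem hasDerivWithinAt_tsum' {I : Type} {S : Set ℝ} (hS : Convex ℝ S) {f f' : I → ℝ → ℝ}
    {u : I → ℝ} (hu : Summable u) (hf : ∀ n, ∀ t ∈ S, HasDerivWithinAt (f n) (f' n t) S t)
    (hb : ∀ n, ∀ t ∈ S, |f' n t| ≤ u n) (hs : ∀ t ∈ S, Summable fun n => f n t) {t : ℝ}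
    (ht : t ∈ S) : HasDerivWithinAt (fun τ => ∑' n, f n τ) (∑' n, f' n t) S t := by
  rw [hasDerivWithinAt_iff_tendsto_slope]
  have h1 : Tendsto (fun τ => ∑' n, slope (f n) t τ) (𝓝[S \ {t}] t) (𝓝 (∑' n, f' n t)) := by
    refine tendsto_tsum_of_dominated_convergence hu (fun n => ?_) ?_
    · exact hasDerivWithinAt_iff_tendsto_slope.mp (hf n t ht)
    · filter_upwards [self_mem_nhdsWithin] with τ hτ n
      have hne : τ - t ≠ 0 := sub_ne_zero.mpr fun h => hτ.2 h
      have h2 := hS.norm_image_sub_le_of_norm_hasDerivWithin_le (hf n) (hb n) ht hτ.1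
      rw [slope_def_field, norm_div, div_le_iff₀ (norm_pos_iff.mpr hne)]
      exact h2
  refine h1.congr' ?_
  filter_upwards [self_mem_nhdsWithin] with τ hτ
  have h2 : ∀ n, slope (f n) t τ = (τ - t)⁻¹ * (f n τ - f n t) := fun n => by
    rw [slope_def_field, div_eq_inv_mul]
  simp only [h2]
  rw [tsum_mul_left, (hs τ hτ.1).tsum_sub (hs t ht), slope_def_field, div_eq_inv_mul]

/-- monotonicity from the derivative -/
theorem mono_of {f f' : ℝ → ℝ} {T : ℝ}
    (h : ∀ t ∈ Ico 0 T, HasDerivWithinAt f (f' t) (Ico 0 T) t) (h0 : ∀ t ∈ Ico 0 T, 0 ≤ f' t) :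
    MonotoneOn f (Ico 0 T) := by
  have hint : ∀ x ∈ interior (Ico (0 : ℝ) T), HasDerivAt f (f' x) x := by
    intro x hx
    exact (h x (interior_subset hx)).hasDerivAt (mem_interior_iff_mem_nhds.1 hx)
  refine monotoneOn_of_deriv_nonneg (convex_Ico 0 T) (fun t ht => (h t ht).continuousWithinAt) ?_ ?_
  · intro x hx
    exact (hint x hx).differentiableAt.differentiableWithinAt
  · intro x hx
    rw [(hint x hx).deriv]
    exact h0 x (interior_subset hx)

/-- damped equations -/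
theorem damped {x q : ℝ → ℝ} {T D K : ℝ} (hD : 0 < D)
    (h : ∀ t ∈ Ico 0 T, HasDerivWithinAt x (-(D * x t) + q t) (Ico 0 T) t)
    (hq : ∀ t ∈ Ico 0 T, |q t| ≤ K) (hx : x 0 = 0) : ∀ t ∈ Ico 0 T, |x t| ≤ K / D := by
  intro t ht
  have hT : (0 : ℝ) ∈ Ico 0 T := ⟨le_rfl, ht.1.trans_lt ht.2⟩
  have hK : 0 ≤ K := (abs_nonneg _).trans (hq 0 hT)
  have hexp : ∀ s : ℝ, HasDerivWithinAt (fun s : ℝ => Real.exp (D * s)) (Real.exp (D * s) * D)
      (Ico 0 T) s := by
    intro s
    have h1 : HasDerivAt (fun s : ℝ => D * s) D s := by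
      simpa using (hasDerivAt_id s).const_mul D
    exact h1.exp.hasDerivWithinAt
  have key : ∀ ε : ℝ, |ε| = 1 → ε * x t ≤ K / D := by
    intro ε hε
    have h1 : MonotoneOn (fun s => K / D * Real.exp (D * s) - ε * (Real.exp (D * s) * x s))
        (Ico 0 T) := by
      refine mono_of (f' := fun s => Real.exp (D * s) * (K - ε * q s)) ?_ ?_
      · intro s hs
        have h2 := ((hexp s).const_mul (K / D)).sub (((hexp s).mul (h s hs)).const_mul ε)
        refine h2.congr_deriv ?_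
        have h3 : K / D * (Real.exp (D * s) * D) = Real.exp (D * s) * K := by
          field_simp
        rw [h3]
        ring
      · intro s hs
        have h2 : ε * q s ≤ K := by
          refine (le_abs_self _).trans ?_
          rw [abs_mul, hε, one_mul]
          exact hq s hs
        exact mul_nonneg (Real.exp_pos _).le (by linarith)
    have h2 := h1 hT ht ht.1
    simp only [mul_zero, Real.exp_zero, mul_one, one_mul, hx, sub_zero] at h2
    have h3 : 0 ≤ K / D := div_nonneg hK hD.le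
    have h4 : 0 ≤ Real.exp (D * t) * (K / D - ε * x t) := by
      have : Real.exp (D * t) * (K / D - ε * x t) =
        K / D * Real.exp (D * t) - ε * (Real.exp (D * t) * x t) := by ring
      rw [this]
      linarith
    have h5 := nonneg_of_mul_nonneg_right h4 (Real.exp_pos _)
    linarith
  rw [abs_le]
  have h1 := key 1 (by simp)
  have h2 := key (-1) (by simp)
  constructor <;> linarith

/-- summation over the groups -/
theorem grp_sum {J : Type} {g : J → ℕ} (hfin : ∀ m, {j | g j = m}.Finite) {M h : ℕ → ℝ}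
    (hcard : ∀ m, ({j | g j = m}.ncard : ℝ) ≤ M m) (h0 : ∀ m, 0 ≤ h m)
    (hs : Summable fun m => M m * h m) :
    Summable (fun j => h (g j)) ∧ ∑' j, h (g j) ≤ ∑' m, M m * h m := by
  classical
  have hM0 : ∀ m, 0 ≤ M m := fun m => (Nat.cast_nonneg _).trans (hcard m)
  have hb : ∀ s : Finset J, ∑ j ∈ s, h (g j) ≤ ∑' m, M m * h m := by
    intro s
    rw [← Finset.sum_fiberwise_of_maps_to (s := s) (t := s.image g) (g := g)
      (fun j hj => Finset.mem_image_of_mem g hj)]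
    refine le_trans ?_ (hs.sum_le_tsum (s.image g) fun m _ => mul_nonneg (hM0 m) (h0 m))
    refine Finset.sum_le_sum fun m _ => ?_
    have h1 : ∑ j ∈ s with g j = m, h (g j) = ((s.filter fun j => g j = m).card : ℝ) * h m := by
      rw [← nsmul_eq_mul, ← Finset.sum_const]
      refine Finset.sum_congr rfl fun j hj => ?_
      rw [(Finset.mem_filter.1 hj).2]
    rw [h1]
    refine mul_le_mul_of_nonneg_right ?_ (h0 m)
    refine le_trans ?_ (hcard m)
    have h2 : (s.filter fun j => g j = m).card ≤ {j | g j = m}.ncard := by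
      rw [← Set.ncard_coe_finset]
      refine Set.ncard_le_ncard ?_ (hfin m)
      intro j hj
      simpa using (Finset.mem_filter.1 (Finset.mem_coe.1 hj)).2
    exact_mod_cast h2
  have hsum : Summable (fun j => h (g j)) :=
    summable_of_sum_le (fun j => h0 _) hb
  exact ⟨hsum, hsum.tsum_le_of_sum_le hb⟩

section seq

variable {lm L C ℓ M : ℕ → ℝ} {B : ℕ → ℕ → ℝ}

theorem L_one (h : Seq lm L C ℓ M B) (n : ℕ) : 1 ≤ L n := by
  induction n with
  | zero => exact h.L0
  | succ n ih =>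
    rw [← h.lm_succ n]
    nlinarith [h.lm_big (n + 1)]

theorem L_step (h : Seq lm L C ℓ M B) (n : ℕ) : 10 ^ 30 * L n ≤ L (n + 1) := by
  rw [← h.lm_succ n]
  nlinarith [h.lm_big (n + 1), L_one h n]

theorem L_geo (h : Seq lm L C ℓ M B) (n : ℕ) : (2 : ℝ) ^ n ≤ L n := by
  induction n with
  | zero => simpa using h.L0
  | succ n ih =>
    have := L_step h n
    have h1 := L_one h n
    rw [pow_succ]
    nlinarith

theorem L_mono (h : Seq lm L C ℓ M B) {m n : ℕ} (hmn : m ≤ n) : L m ≤ L n := by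
  refine monotone_nat_of_le_succ (f := L) (fun k => ?_) hmn
  have := L_step h k
  have h1 := L_one h k
  nlinarith

theorem M_mono' (h : Seq lm L C ℓ M B) {m n : ℕ} (hmn : m ≤ n) : M m ≤ M n :=
  monotone_nat_of_le_succ (f := M) h.M_mono hmn

theorem M_L4 (h : Seq lm L C ℓ M B) (n : ℕ) : M n ≤ L n ^ 4 := (h.M_mono n).trans (h.M_le n)

theorem ell_le (h : Seq lm L C ℓ M B) (n : ℕ) : ℓ n ≤ L n := by
  cases n with
  | zero =>
    have h1 := h.ℓ_zero
    have h2 := h.lm_big 0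
    have h3 := h.ℓ_nonneg 0
    nlinarith
  | succ n =>
    have h1 := h.ℓ_succ n
    have h2 := L_step h n
    have h3 := L_one h n
    have h4 : (9 / 1000 : ℝ) ^ n ≤ 1 := pow_le_one₀ (by norm_num) (by norm_num)
    have h5 := h.ℓ_nonneg (n + 1)
    have h6 : L n * (9 / 1000) ^ n ≤ L n * 1 := mul_le_mul_of_nonneg_left h4 (by linarith)
    nlinarith

theorem C_nonneg (h : Seq lm L C ℓ M B) (n : ℕ) : 0 ≤ C n := (Real.exp_pos _).le.trans (h.C_lo n)

theorem C_le_one (h : Seq lm L C ℓ M B) (n : ℕ) : C n ≤ 1 := by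
  refine (h.C_hi n).trans ?_
  rw [Real.exp_le_one_iff]
  have := h.lm_big n
  nlinarith

end seq

/-- splitting of a double series over `ℕ ⊕ J` -/
theorem split4 {J : Type} {G : (ℕ ⊕ J) × (ℕ ⊕ J) → ℝ} (hG : Summable G) :
    Summable (fun p : ℕ × ℕ => G (Sum.inl p.1, Sum.inl p.2)) ∧
    Summable (fun p : ℕ × J => G (Sum.inl p.1, Sum.inr p.2)) ∧
    Summable (fun p : J × ℕ => G (Sum.inr p.1, Sum.inl p.2)) ∧
    Summable (fun p : J × J => G (Sum.inr p.1, Sum.inr p.2)) ∧
    ∑' p, G p = (∑' p : ℕ × ℕ, G (Sum.inl p.1, Sum.inl p.2) +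
      ∑' p : ℕ × J, G (Sum.inl p.1, Sum.inr p.2)) + (∑' p : J × ℕ, G (Sum.inr p.1, Sum.inl p.2) +
      ∑' p : J × J, G (Sum.inr p.1, Sum.inr p.2)) := by
  let e : ((ℕ × ℕ) ⊕ (ℕ × J)) ⊕ ((J × ℕ) ⊕ (J × J)) ≃ (ℕ ⊕ J) × (ℕ ⊕ J) :=
    { toFun := Sum.elim (Sum.elim (fun p => (Sum.inl p.1, Sum.inl p.2))
        (fun p => (Sum.inl p.1, Sum.inr p.2))) (Sum.elim (fun p => (Sum.inr p.1, Sum.inl p.2))
        (fun p => (Sum.inr p.1, Sum.inr p.2)))
      invFun := fun p => match p with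
        | (Sum.inl i, Sum.inl j) => Sum.inl (Sum.inl (i, j))
        | (Sum.inl i, Sum.inr w) => Sum.inl (Sum.inr (i, w))
        | (Sum.inr w, Sum.inl j) => Sum.inr (Sum.inl (w, j))
        | (Sum.inr w, Sum.inr w') => Sum.inr (Sum.inr (w, w'))
      left_inv := by rintro ((⟨i, j⟩ | ⟨i, w⟩) | (⟨w, j⟩ | ⟨w, w'⟩)) <;> rfl
      right_inv := by rintro ⟨i | w, j | w'⟩ <;> rfl }
  have h0 : Summable (G ∘ e) := (e.summable_iff).2 hG
  have h1 : Summable ((G ∘ e) ∘ Sum.inl) := h0.comp_injective Sum.inl_injective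
  have h2 : Summable ((G ∘ e) ∘ Sum.inr) := h0.comp_injective Sum.inr_injective
  have h11 : Summable (((G ∘ e) ∘ Sum.inl) ∘ Sum.inl) := h1.comp_injective Sum.inl_injective
  have h12 : Summable (((G ∘ e) ∘ Sum.inl) ∘ Sum.inr) := h1.comp_injective Sum.inr_injective
  have h21 : Summable (((G ∘ e) ∘ Sum.inr) ∘ Sum.inl) := h2.comp_injective Sum.inl_injective
  have h22 : Summable (((G ∘ e) ∘ Sum.inr) ∘ Sum.inr) := h2.comp_injective Sum.inr_injective
  refine ⟨h11, h12, h21, h22, ?_⟩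
  rw [← e.tsum_eq G]
  have e1 := Summable.tsum_sum (f := G ∘ e) h1 h2
  have e2 := Summable.tsum_sum (f := (G ∘ e) ∘ Sum.inl) h11 h12
  have e3 := Summable.tsum_sum (f := (G ∘ e) ∘ Sum.inr) h21 h22
  calc ∑' c, G (e c) = ∑' c, (G ∘ e) c := rfl
    _ = _ := e1
    _ = _ := by
      have e4 : ∑' i, (G ∘ e) (Sum.inl i) = ∑' i, ((G ∘ e) ∘ Sum.inl) i := rfl
      have e5 : ∑' i, (G ∘ e) (Sum.inr i) = ∑' i, ((G ∘ e) ∘ Sum.inr) i := rfl
      rw [e4, e5, e2, e3]
      rfl

end Pool.Agent.Y494.ND
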