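import Pool.Agent.Y494.ND.Tools

/-!
Job S_HK of the project NS/D.
-/

open Set Filter Topology

set_option autoImplicit false
set_option linter.all false

namespace Pool.Agent.Y494.ND.HK

open Pool.Agent.Y5.D Pool.Agent.Y494.ND

variable {J : Type} {g : J → ℕ} {lm L C ℓ M S : ℕ → ℝ} {B : ℕ → ℕ → ℝ}
  {c : Ix J → Ix J → Ix J → ℝ}

/-- the base -/
noncomputable def XX (L M : ℕ → ℝ) (m : ℕ) : ℝ := L (m + 2) * M (m + 2)

theorem XX_one (hs : Seq lm L C ℓ M B) (m : ℕ) : 1 ≤ XX L M m :=
  one_le_mul_of_one_le_of_one_le (L_one hs _) (hs.M_one _)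

theorem XX_mono (hs : Seq lm L C ℓ M B) {m n : ℕ} (h : m ≤ n) : XX L M m ≤ XX L M n := by
  unfold XX
  have h1 := L_one hs (m + 2)
  have h2 := hs.M_one (m + 2)
  exact mul_le_mul (L_mono hs (by omega)) (M_mono' hs (by omega)) (by linarith)
    (by linarith [L_one hs (n + 2)])

/-- the constants -/
noncomputable def QQ (L M : ℕ → ℝ) (k : ℕ) : ℝ := XX L M k ^ (k + 12)

theorem QQ_one (hs : Seq lm L C ℓ M B) (k : ℕ) : 1 ≤ QQ L M k := one_le_pow₀ (XX_one hs k)

theorem XX_pow (hs : Seq lm L C ℓ M B) (k m : ℕ) :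
    XX L M m ^ (k + 12) ≤ QQ L M k * XX L M m ^ (m + 20) := by
  have h1 := XX_one hs m
  have h2 := QQ_one hs k
  have h3 : 1 ≤ XX L M m ^ (m + 20) := one_le_pow₀ h1
  rcases le_or_gt (k + 12) (m + 20) with h | h
  · calc XX L M m ^ (k + 12) ≤ XX L M m ^ (m + 20) := pow_le_pow_right₀ h1 h
      _ = 1 * XX L M m ^ (m + 20) := (one_mul _).symm
      _ ≤ _ := by gcongr
  · calc XX L M m ^ (k + 12) ≤ XX L M k ^ (k + 12) := by
          have := XX_mono hs (show m ≤ k by omega)
          gcongr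
      _ = QQ L M k * 1 := by rw [mul_one]; rfl
      _ ≤ _ := by gcongr

/-- the hypothesis on the damping -/
def Big (L M S : ℕ → ℝ) : Prop := ∀ m, 2 ^ m * XX L M m ^ (m + 20) ≤ S m

theorem big_le (hs : Seq lm L C ℓ M B) (hS : Big L M S) (k m : ℕ) {Q : ℝ}
    (hQ : Q ≤ XX L M m ^ (k + 12)) : Q * (S m)⁻¹ ≤ QQ L M k * (1 / 2) ^ m := by
  have h1 := XX_one hs m
  have h2 := QQ_one hs k
  have h3 : 0 < 2 ^ m * XX L M m ^ (m + 20) := by positivity
  have h4 : 0 < S m := lt_of_lt_of_le h3 (hS m)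
  rw [← div_eq_mul_inv, div_le_iff₀ h4]
  have h5 := XX_pow hs k m
  calc Q ≤ QQ L M k * XX L M m ^ (m + 20) := hQ.trans h5
    _ = QQ L M k * (1 / 2) ^ m * (2 ^ m * XX L M m ^ (m + 20)) := by
        have : ((1 : ℝ) / 2) ^ m * 2 ^ m = 1 := by
          rw [← mul_pow]; norm_num
        calc QQ L M k * XX L M m ^ (m + 20) = QQ L M k * (((1 : ℝ) / 2) ^ m * 2 ^ m) *
            XX L M m ^ (m + 20) := by rw [this, mul_one]
          _ = _ := by ring
    _ ≤ _ := by
        have := hS m
        gcongr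

theorem grpS (hK : Kern g L C B M c) (hs : Seq lm L C ℓ M B) {h : ℕ → ℝ} {t : ℝ}
    (h0 : ∀ m, 0 ≤ h m) (hb : ∀ m, M m * h m ≤ t * (1 / 2) ^ m) : Summable (fun j => h (g j)) :=
  (grp_sum hK.fin hK.card h0 (Summable.of_nonneg_of_le
    (fun m => mul_nonneg (zero_le_one.trans (hs.M_one m)) (h0 m)) hb
    (summable_geometric_two.mul_left t))).1

/-- the inverse weights -/
noncomputable def kv (L S : ℕ → ℝ) (g : J → ℕ) (a : Ix J) : ℝ := (κI L S g a)⁻¹

/-- the geometric function -/
noncomputable def tt : Ix J → ℝ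
  | Sum.inl i => (1 / 2) ^ i
  | Sum.inr _ => 0

/-- the function for the low entries -/
noncomputable def Mw (M S : ℕ → ℝ) (g : J → ℕ) : Ix J → ℝ
  | Sum.inl _ => 0
  | Sum.inr w => M (g w) * (S (g w))⁻¹

/-- the function for the high entries -/
noncomputable def VV (L M S : ℕ → ℝ) (g : J → ℕ) (k : ℕ) : Ix J → ℝ
  | Sum.inl _ => 0
  | Sum.inr w => M (g w + 2) * L (g w + 2) ^ (k + 10) * (S (g w))⁻¹

theorem M_le_XX (hs : Seq lm L C ℓ M B) (m : ℕ) : M (m + 2) ≤ XX L M m := by
  have h1 := L_one hs (m + 2)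
  have h2 := hs.M_one (m + 2)
  unfold XX
  nlinarith

theorem L_le_XX (hs : Seq lm L C ℓ M B) (m : ℕ) : L (m + 2) ≤ XX L M m := by
  have h1 := L_one hs (m + 2)
  have h2 := hs.M_one (m + 2)
  unfold XX
  nlinarith

theorem kv_pos (hs : Seq lm L C ℓ M B) (hS : ∀ m, 1 ≤ S m) (a : Ix J) :
    0 < kv L S g a ∧ kv L S g a ≤ 1 ∧ 1 ≤ κI L S g a := by
  have h1 : 1 ≤ κI L S g a := by
    cases a with
    | inl n => exact one_le_pow₀ (L_one hs n)
    | inr w => exact hS _
  exact ⟨inv_pos.2 (by linarith), inv_le_one_of_one_le₀ h1, h1⟩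

theorem half_L (hs : Seq lm L C ℓ M B) (n : ℕ) : (L n)⁻¹ ≤ (1 / 2) ^ n := by
  rw [one_div, inv_pow]
  exact inv_anti₀ (by positivity) (L_geo hs n)

theorem kv_sum (hK : Kern g L C B M c) (hs : Seq lm L C ℓ M B) (hS : Big L M S)
    (hS1 : ∀ m, 1 ≤ S m) : Summable (kv L S g) := by
  refine Summable.sum _ ?_ ?_
  · refine Summable.of_nonneg_of_le (fun n => (kv_pos hs hS1 _).1.le) (fun n => ?_)
      summable_geometric_two
    show (L n ^ 10)⁻¹ ≤ _
    have h1 := L_one hs n
    refine le_trans ?_ (half_L hs n)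
    exact inv_anti₀ (by positivity) (le_self_pow₀ h1 (by norm_num))
  · refine grpS hK hs (h := fun m => (S m)⁻¹) (t := QQ L M 0) (fun m => ?_) (fun m => ?_)
    · have := hS1 m
      positivity
    · refine big_le hs hS 0 m ?_
      have h1 := XX_one hs m
      calc M m ≤ M (m + 2) := M_mono' hs (by omega)
        _ ≤ XX L M m := M_le_XX hs m
        _ ≤ _ := le_self_pow₀ h1 (by norm_num)

theorem tt_sum : Summable (tt : Ix J → ℝ) := by
  refine Summable.sum _ summable_geometric_two ?_
  exact summable_zero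

theorem Mw_sum (hK : Kern g L C B M c) (hs : Seq lm L C ℓ M B) (hS : Big L M S)
    (hS1 : ∀ m, 1 ≤ S m) : Summable (Mw M S g) := by
  refine Summable.sum _ summable_zero ?_
  refine grpS hK hs (h := fun m => M m * (S m)⁻¹) (t := QQ L M 0) (fun m => ?_) (fun m => ?_)
  · have := hS1 m
    have := hs.M_one m
    positivity
  · rw [← mul_assoc]
    refine big_le hs hS 0 m ?_
    have h1 := XX_one hs m
    have h2 : M m ≤ XX L M m := (M_mono' hs (by omega)).trans (M_le_XX hs m)
    have h3 := hs.M_one m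
    calc M m * M m ≤ XX L M m * XX L M m := by gcongr
      _ = XX L M m ^ 2 := by ring
      _ ≤ _ := pow_le_pow_right₀ h1 (by norm_num)

theorem VV_sum (hK : Kern g L C B M c) (hs : Seq lm L C ℓ M B) (hS : Big L M S)
    (hS1 : ∀ m, 1 ≤ S m) (k : ℕ) : Summable (VV L M S g k) := by
  refine Summable.sum _ summable_zero ?_
  refine grpS hK hs (h := fun m => M (m + 2) * L (m + 2) ^ (k + 10) * (S m)⁻¹) (t := QQ L M k)
    (fun m => ?_) (fun m => ?_)
  · have := hS1 m
    have := hs.M_one (m + 2)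
    have := L_one hs (m + 2)
    positivity
  · rw [← mul_assoc]
    refine big_le hs hS k m ?_
    have h1 := XX_one hs m
    have h2 : M m ≤ XX L M m := (M_mono' hs (by omega)).trans (M_le_XX hs m)
    have h3 := hs.M_one m
    have h4 := M_le_XX hs m
    have h5 := L_le_XX hs m
    have h6 := hs.M_one (m + 2)
    have h7 := L_one hs (m + 2)
    calc M m * (M (m + 2) * L (m + 2) ^ (k + 10))
        ≤ XX L M m * (XX L M m * XX L M m ^ (k + 10)) := by gcongr
      _ = XX L M m ^ (k + 12) := by ring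

/-- the small coefficients -/
theorem C_small (hs : Seq lm L C ℓ M B) (k i : ℕ) : C i * L (i + 1) ^ (k + 10) ≤ L (k + 5) ^ (k + 10) := by
  have hL5 : 1 ≤ L (k + 5) ^ (k + 10) := one_le_pow₀ (L_one hs _)
  rcases lt_or_ge i (k + 4) with h | h
  · have h1 : L (i + 1) ≤ L (k + 5) := L_mono hs (by omega)
    have h2 := L_one hs (i + 1)
    calc C i * L (i + 1) ^ (k + 10) ≤ 1 * L (k + 5) ^ (k + 10) := by
          have := C_le_one hs i
          have := C_nonneg hs i
          gcongr
      _ = _ := one_mul _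
  · refine le_trans ?_ hL5
    obtain ⟨j, rfl⟩ : ∃ j, i = j + 4 := ⟨i - 4, by omega⟩
    have hLone := L_one hs (j + 4 + 1)
    have hMone := hs.M_one (j + 5)
    have h1 : L (j + 4 + 1) ^ 10 ≤ Real.exp (lm j / 10 ^ 6) := by
      refine le_trans ?_ (hs.exp_big j)
      have h2 : L (j + 4 + 1) ≤ L (j + 5) * M (j + 5) := by
        have h3 := L_one hs (j + 5)
        have e : j + 4 + 1 = j + 5 := by omega
        rw [e]
        nlinarith
      gcongr
    have h2 : L (j + 4 + 1) ^ (k + 10) ≤ Real.exp ((k + 10 : ℕ) * (lm j / 10 ^ 6)) := by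
      rw [Real.exp_nat_mul]
      refine pow_le_pow_left₀ (by linarith) ?_ _
      exact (le_self_pow₀ hLone (by norm_num)).trans h1
    have hlm : ∀ n, lm n ≤ lm (n + 1) := by
      intro n
      have h3 := hs.lm_grow n
      have h4 := hs.lm_big n
      have h5 : (0 : ℝ) ≤ n := Nat.cast_nonneg n
      nlinarith
    have h3 : 100 * (((j + 3 : ℕ) : ℝ) + 1) * lm j ≤ lm (j + 4) := by
      refine le_trans ?_ (hs.lm_grow (j + 3))
      have h4 : lm j ≤ lm (j + 3) := (hlm j).trans ((hlm (j + 1)).trans (hlm (j + 2)))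
      gcongr
    calc C (j + 4) * L (j + 4 + 1) ^ (k + 10)
        ≤ Real.exp (-(199 / 10000 * lm (j + 4))) * Real.exp ((k + 10 : ℕ) * (lm j / 10 ^ 6)) := by
          have := hs.C_hi (j + 4)
          have := C_nonneg hs (j + 4)
          gcongr
      _ = Real.exp (-(199 / 10000 * lm (j + 4)) + (k + 10 : ℕ) * (lm j / 10 ^ 6)) := by
          rw [Real.exp_add]
      _ ≤ 1 := by
          rw [Real.exp_le_one_iff]
          have h4 : (k : ℝ) ≤ j := by exact_mod_cast (by omega : k ≤ j)
          have h5 := hs.lm_big j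
          have h6 : (0 : ℝ) ≤ k := Nat.cast_nonneg k
          push_cast at h3 ⊢
          nlinarith

/-- the indicator of a main mode -/
noncomputable def en (n : ℕ) : Ix J → ℝ
  | Sum.inl i => if i = n then 1 else 0
  | Sum.inr _ => 0

theorem en_nonneg (n : ℕ) (a : Ix J) : 0 ≤ en n a := by
  cases a with
  | inl i => show (0 : ℝ) ≤ if i = n then 1 else 0; split_ifs <;> norm_num
  | inr w => exact le_rfl

theorem en_self (n : ℕ) : en n (Sum.inl n : Ix J) = 1 := by
  show (if n = n then (1 : ℝ) else 0) = 1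
  rw [if_pos rfl]

theorem en_sum (n : ℕ) : HasSum (en n : Ix J → ℝ) 1 := by
  have h1 : HasSum (en n : Ix J → ℝ) (en n (Sum.inl n : Ix J)) := by
    refine hasSum_single _ fun a ha => ?_
    cases a with
    | inl i =>
      show (if i = n then (1 : ℝ) else 0) = 0
      rw [if_neg]
      rintro rfl
      exact ha rfl
    | inr w => rfl
  rwa [en_self] at h1

/-- the bound of a row -/
theorem row_inl (hK : Kern g L C B M c) (hs : Seq lm L C ℓ M B) (hS : Big L M S)
    (hS1 : ∀ m, 1 ≤ S m) (k n : ℕ) (a b : Ix J) :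
    |c (Sum.inl n) a b| * (L n ^ k * L n ^ 10) /
      (κI L S g a * κI L S g b * (rI L g a ^ k + rI L g b ^ k)) ≤
    en n a * (2 * tt b + Mw M S g b) +
      (2 + L (k + 5) ^ (k + 10)) * (tt a * tt b) + (VV L M S g k a * kv L S g b +
      kv L S g a * VV L M S g k b) := by
  classical
  have hLn := L_one hs n
  have hM0 : ∀ m, 0 ≤ M m := fun m => zero_le_one.trans (hs.M_one m)
  have hL0 : ∀ m, 0 < L m := fun m => lt_of_lt_of_le one_pos (L_one hs m)
  have hS0 : ∀ m, 0 < S m := fun m => lt_of_lt_of_le one_pos (hS1 m)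
  have hr : ∀ a : Ix J, 1 ≤ rI L g a ^ k := fun a => one_le_pow₀ (L_one hs _)
  have hkv := fun a : Ix J => kv_pos (g := g) hs hS1 a
  have htt : ∀ a : Ix J, 0 ≤ tt a := by
    intro a
    cases a with
    | inl i => show (0 : ℝ) ≤ (1 / 2) ^ i; positivity
    | inr w => exact le_rfl
  have hMw : ∀ a : Ix J, 0 ≤ Mw M S g a := by
    intro a
    cases a with
    | inl i => exact le_rfl
    | inr w => exact mul_nonneg (hM0 _) (inv_pos.2 (hS0 _)).le
  have hVV : ∀ a : Ix J, 0 ≤ VV L M S g k a := by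
    intro a
    cases a with
    | inl i => exact le_rfl
    | inr w =>
      exact mul_nonneg (mul_nonneg (hM0 _) (pow_nonneg (hL0 _).le _)) (inv_pos.2 (hS0 _)).le
  have hD : (0 : ℝ) ≤ 2 + L (k + 5) ^ (k + 10) := by
    have := hL0 (k + 5)
    positivity
  have hden : ∀ a b : Ix J, 0 < κI L S g a * κI L S g b * (rI L g a ^ k + rI L g b ^ k) := by
    intro a b
    have h1 := (hkv a).2.2
    have h2 := (hkv b).2.2
    have h3 := hr a
    have h4 := hr b
    positivity
  have p1 : (0 : ℝ) ≤ en n a * (2 * tt b + Mw M S g b) := by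
    have h1 := htt b
    have h2 := hMw b
    have h3 := en_nonneg n a
    positivity
  have p2 : (0 : ℝ) ≤ (2 + L (k + 5) ^ (k + 10)) * (tt a * tt b) :=
    mul_nonneg hD (mul_nonneg (htt a) (htt b))
  have p3 : (0 : ℝ) ≤ VV L M S g k a * kv L S g b := mul_nonneg (hVV a) (hkv b).1.le
  have p4 : (0 : ℝ) ≤ kv L S g a * VV L M S g k b := mul_nonneg (hkv a).1.le (hVV b)
  -- the case of a large first index
  have wa : ∀ i, n ≤ i → ∀ b : Ix J, (L n ^ k * L n ^ 10) /
      (κI L S g (Sum.inl i) * κI L S g b * (rI L g (Sum.inl i) ^ k + rI L g b ^ k)) ≤ kv L S g b := by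
    intro i hi b
    rw [div_le_iff₀ (hden _ _)]
    have h1 : L n ≤ L i := L_mono hs hi
    have h2 := (hkv b).2.2
    have h3 := hr b
    have h4 : κI L S g (Sum.inl i) = L i ^ 10 := rfl
    have h5 : rI L g (Sum.inl i) = L i := rfl
    have h6 : kv L S g b * κI L S g b = 1 := inv_mul_cancel₀ (by linarith)
    rw [h4, h5]
    have hLi0 := hL0 i
    have hLi1 : 0 ≤ L i ^ k := by positivity
    calc L n ^ k * L n ^ 10 ≤ L i ^ k * L i ^ 10 := by gcongr
      _ = (kv L S g b * κI L S g b) * (L i ^ 10 * L i ^ k) := by rw [h6]; ring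
      _ ≤ (kv L S g b * κI L S g b) * (L i ^ 10 * (L i ^ k + rI L g b ^ k)) := by
          have := hL0 i
          have h7 : 0 ≤ L i ^ k := by positivity
          rw [h6]
          gcongr
          linarith
      _ = _ := by ring
  by_cases hc : c (Sum.inl n) a b = 0
  · rw [hc, abs_zero, zero_mul, zero_div]
    linarith
  -- high entries
  have high : ∀ w, n ≤ g w + 2 → ∀ a' : Ix J,
      M n * (L n ^ k * L n ^ 10) * ((S (g w))⁻¹ * kv L S g a') ≤ VV L M S g k (Sum.inr w) * kv L S g a' := by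
    intro w hw a'
    have h1 : L n ≤ L (g w + 2) := L_mono hs hw
    have h2 : M n ≤ M (g w + 2) := M_mono' hs hw
    have h3 := (hkv a').1
    have h4 := hS0 (g w)
    have h5 := hM0 (g w + 2)
    show _ ≤ M (g w + 2) * L (g w + 2) ^ (k + 10) * (S (g w))⁻¹ * kv L S g a'
    calc M n * (L n ^ k * L n ^ 10) * ((S (g w))⁻¹ * kv L S g a')
        = M n * L n ^ (k + 10) * ((S (g w))⁻¹ * kv L S g a') := by rw [pow_add]
      _ ≤ M (g w + 2) * L (g w + 2) ^ (k + 10) * ((S (g w))⁻¹ * kv L S g a') := by gcongr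
      _ = _ := by ring
  have dall : ∀ a b : Ix J, |c (Sum.inl n) a b| * (L n ^ k * L n ^ 10) /
      (κI L S g a * κI L S g b * (rI L g a ^ k + rI L g b ^ k)) ≤
      M n * (L n ^ k * L n ^ 10) * (kv L S g a * kv L S g b) := by
    intro a b
    rw [div_le_iff₀ (hden _ _)]
    have h1 := hkv a
    have h2 := hkv b
    have h3 : kv L S g a * κI L S g a = 1 := inv_mul_cancel₀ (by linarith [h1.2.2])
    have h4 : kv L S g b * κI L S g b = 1 := inv_mul_cancel₀ (by linarith [h2.2.2])
    have h5 := hr a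
    have h6 := hr b
    have h7 : |c (Sum.inl n) a b| ≤ M n := hK.size _ _ _
    calc |c (Sum.inl n) a b| * (L n ^ k * L n ^ 10) ≤ M n * (L n ^ k * L n ^ 10) * 1 := by
          rw [mul_one]
          gcongr
      _ ≤ M n * (L n ^ k * L n ^ 10) * (rI L g a ^ k + rI L g b ^ k) := by
          have := hM0 n
          gcongr
          linarith
      _ = M n * (L n ^ k * L n ^ 10) * ((kv L S g a * κI L S g a) * (kv L S g b * κI L S g b) *
          (rI L g a ^ k + rI L g b ^ k)) := by rw [h3, h4]; ring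
      _ = _ := by ring
  rcases a with i | w
  · rcases b with j | w
    · -- the table
      have htab := hK.tab i j n
      by_cases c1 : i = n ∧ j < n
      · have e : c (Sum.inl n) (Sum.inl i) (Sum.inl j) = L j * B j n := by
          rw [htab, if_pos c1, if_neg (by omega), if_neg (by omega), if_neg (by omega)]
          ring
        have h1 := hs.B_lo j n c1.2
        have h2 := hs.B_hi j n c1.2
        have h3 : |c (Sum.inl n) (Sum.inl i) (Sum.inl j)| ≤ 2 * L j := by
          rw [e, abs_mul, abs_of_pos (hL0 j), abs_of_nonneg (by linarith)]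
          nlinarith [hL0 j]
        have h4 := wa i (by omega) (Sum.inl j)
        have h5 : kv L S g (Sum.inl j) * L j ≤ (1 / 2) ^ j := by
          show (L j ^ 10)⁻¹ * L j ≤ _
          refine le_trans ?_ (half_L hs j)
          have := L_one hs j
          rw [← div_eq_inv_mul, div_le_iff₀ (by positivity)]
          calc L j = (L j)⁻¹ * L j ^ 2 := by field_simp
            _ ≤ (L j)⁻¹ * L j ^ 10 := by
                gcongr
                norm_num
        have h6 : |c (Sum.inl n) (Sum.inl i) (Sum.inl j)| * (L n ^ k * L n ^ 10) /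
            (κI L S g (Sum.inl i) * κI L S g (Sum.inl j) *
              (rI L g (Sum.inl i) ^ k + rI L g (Sum.inl j) ^ k)) ≤ 2 * (1 / 2) ^ j := by
          rw [mul_div_assoc]
          calc _ ≤ 2 * L j * kv L S g (Sum.inl j) := by
                refine mul_le_mul h3 h4 ?_ (by have := hL0 j; positivity)
                exact div_nonneg (by positivity) (hden _ _).le
            _ = 2 * (kv L S g (Sum.inl j) * L j) := by ring
            _ ≤ _ := by linarith
        have h7 : (2 : ℝ) * (1 / 2) ^ j ≤ en n (Sum.inl i : Ix J) *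
            (2 * tt (Sum.inl j : Ix J) + Mw M S g (Sum.inl j)) := by
          rw [c1.1, en_self, one_mul]
          show (2 : ℝ) * (1 / 2) ^ j ≤ 2 * (1 / 2) ^ j + 0
          linarith
        linarith
      by_cases c2 : i = j ∧ n < i
      · have e : c (Sum.inl n) (Sum.inl i) (Sum.inl j) = -(L n * B n i) := by
          rw [htab, if_neg c1, if_pos c2, if_neg (by omega), if_neg (by omega)]
          ring
        obtain ⟨rfl, hni⟩ := c2
        have h1 := hs.B_lo n i hni
        have h2 := hs.B_hi n i hni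
        have hLi : L n ≤ L i := L_mono hs hni.le
        have h3 : |c (Sum.inl n) (Sum.inl i) (Sum.inl i)| ≤ 2 * L i := by
          rw [e, abs_neg, abs_mul, abs_of_pos (hL0 n), abs_of_nonneg (by linarith)]
          nlinarith [hL0 n]
        have h4 := wa i hni.le (Sum.inl i)
        have h5 : kv L S g (Sum.inl i) * L i ≤ (1 / 2) ^ i * (1 / 2) ^ i := by
          show (L i ^ 10)⁻¹ * L i ≤ _
          have h6 := half_L hs i
          have := L_one hs i
          refine le_trans ?_ (mul_le_mul h6 h6 (by positivity) (by positivity))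
          rw [← div_eq_inv_mul, div_le_iff₀ (by positivity)]
          calc L i = (L i)⁻¹ * (L i)⁻¹ * L i ^ 3 := by field_simp
            _ ≤ (L i)⁻¹ * (L i)⁻¹ * L i ^ 10 := by
                gcongr
                norm_num
        have h6 : |c (Sum.inl n) (Sum.inl i) (Sum.inl i)| * (L n ^ k * L n ^ 10) /
            (κI L S g (Sum.inl i) * κI L S g (Sum.inl i) *
              (rI L g (Sum.inl i) ^ k + rI L g (Sum.inl i) ^ k)) ≤ 2 * ((1 / 2) ^ i * (1 / 2) ^ i) := by
          rw [mul_div_assoc]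
          calc _ ≤ 2 * L i * kv L S g (Sum.inl i) := by
                refine mul_le_mul h3 h4 ?_ (by have := hL0 i; positivity)
                exact div_nonneg (by positivity) (hden _ _).le
            _ = 2 * (kv L S g (Sum.inl i) * L i) := by ring
            _ ≤ _ := by linarith
        have h7 : (2 : ℝ) * ((1 / 2) ^ i * (1 / 2) ^ i) ≤ (2 + L (k + 5) ^ (k + 10)) *
            (tt (Sum.inl i : Ix J) * tt (Sum.inl i : Ix J)) := by
          show (2 : ℝ) * ((1 / 2) ^ i * (1 / 2) ^ i) ≤ (2 + L (k + 5) ^ (k + 10)) *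
            ((1 / 2) ^ i * (1 / 2) ^ i)
          have := hL0 (k + 5)
          gcongr
          have h8 : 0 ≤ L (k + 5) ^ (k + 10) := by positivity
          linarith
        linarith
      by_cases c3 : i = j ∧ n = i + 1
      · have e : c (Sum.inl n) (Sum.inl i) (Sum.inl j) = L i * C i := by
          rw [htab, if_neg c1, if_neg c2, if_pos c3, if_neg (by omega)]
          ring
        obtain ⟨rfl, rfl⟩ := c3
        have h1 := C_small hs k i
        have hC0 := C_nonneg hs i
        have h3 := L_one hs i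
        have h6 : |c (Sum.inl (i + 1)) (Sum.inl i) (Sum.inl i)| * (L (i + 1) ^ k * L (i + 1) ^ 10) /
            (κI L S g (Sum.inl i) * κI L S g (Sum.inl i) *
              (rI L g (Sum.inl i) ^ k + rI L g (Sum.inl i) ^ k)) ≤
              L (k + 5) ^ (k + 10) * ((1 / 2) ^ i * (1 / 2) ^ i) := by
          rw [div_le_iff₀ (hden _ _), e, abs_of_nonneg (by positivity)]
          have h7 : κI L S g (Sum.inl i) = L i ^ 10 := rfl
          have h8 : rI L g (Sum.inl i) = L i := rfl
          rw [h7, h8]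
          have h9 : 1 ≤ L i ^ k := one_le_pow₀ h3
          have h10 : (L i)⁻¹ * (L i)⁻¹ ≤ (1 / 2) ^ i * (1 / 2) ^ i :=
            mul_le_mul (half_L hs i) (half_L hs i) (by positivity) (by positivity)
          have h11 : 0 < L (k + 5) ^ (k + 10) := pow_pos (hL0 _) _
          have hLi0 := hL0 i
          calc L i * C i * (L (i + 1) ^ k * L (i + 1) ^ 10)
              = L i * (C i * L (i + 1) ^ (k + 10)) := by rw [pow_add]; ring
            _ ≤ L i * L (k + 5) ^ (k + 10) := by gcongr
            _ = L (k + 5) ^ (k + 10) * L i ^ 1 := by ring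
            _ ≤ L (k + 5) ^ (k + 10) * L i ^ 18 := by
                gcongr
                norm_num
            _ = L (k + 5) ^ (k + 10) * ((L i)⁻¹ * (L i)⁻¹) * (L i ^ 10 * L i ^ 10 * 1) := by
                field_simp
            _ ≤ L (k + 5) ^ (k + 10) * ((1 / 2) ^ i * (1 / 2) ^ i) *
                (L i ^ 10 * L i ^ 10 * (L i ^ k + L i ^ k)) := by
                gcongr
                linarith
        have h7 : L (k + 5) ^ (k + 10) * ((1 / 2) ^ i * (1 / 2) ^ i) ≤ (2 + L (k + 5) ^ (k + 10)) *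
            (tt (Sum.inl i : Ix J) * tt (Sum.inl i : Ix J)) := by
          show L (k + 5) ^ (k + 10) * ((1 / 2) ^ i * (1 / 2) ^ i) ≤ (2 + L (k + 5) ^ (k + 10)) *
            ((1 / 2) ^ i * (1 / 2) ^ i)
          gcongr
          linarith
        linarith
      by_cases c4 : i = n ∧ j = n + 1
      · have e : c (Sum.inl n) (Sum.inl i) (Sum.inl j) = -(L n * C n) := by
          rw [htab, if_neg c1, if_neg c2, if_neg c3, if_pos c4]
          ring
        obtain ⟨rfl, rfl⟩ := c4
        have hC0 := C_nonneg hs i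
        have hC1 := C_le_one hs i
        have hLi : L i ≤ L (i + 1) := L_mono hs (by omega)
        have h3 : |c (Sum.inl i) (Sum.inl i) (Sum.inl (i + 1))| ≤ L (i + 1) := by
          rw [e, abs_neg, abs_mul, abs_of_pos (hL0 i), abs_of_nonneg hC0]
          nlinarith [hL0 i]
        have h4 := wa i le_rfl (Sum.inl (i + 1))
        have h5 : kv L S g (Sum.inl (i + 1)) * L (i + 1) ≤ (1 / 2) ^ (i + 1) := by
          show (L (i + 1) ^ 10)⁻¹ * L (i + 1) ≤ _
          refine le_trans ?_ (half_L hs (i + 1))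
          have := L_one hs (i + 1)
          rw [← div_eq_inv_mul, div_le_iff₀ (by positivity)]
          calc L (i + 1) = (L (i + 1))⁻¹ * L (i + 1) ^ 2 := by field_simp
            _ ≤ (L (i + 1))⁻¹ * L (i + 1) ^ 10 := by
                gcongr
                norm_num
        have h6 : |c (Sum.inl i) (Sum.inl i) (Sum.inl (i + 1))| * (L i ^ k * L i ^ 10) /
            (κI L S g (Sum.inl i) * κI L S g (Sum.inl (i + 1)) *
              (rI L g (Sum.inl i) ^ k + rI L g (Sum.inl (i + 1)) ^ k)) ≤ 2 * (1 / 2) ^ (i + 1) := by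
          rw [mul_div_assoc]
          calc _ ≤ L (i + 1) * kv L S g (Sum.inl (i + 1)) := by
                refine mul_le_mul h3 h4 ?_ (hL0 _).le
                exact div_nonneg (by have := hL0 i; positivity) (hden _ _).le
            _ = kv L S g (Sum.inl (i + 1)) * L (i + 1) := by ring
            _ ≤ _ := by
                have h8 : (0 : ℝ) ≤ (1 / 2) ^ (i + 1) := by positivity
                linarith
        have h7 : (2 : ℝ) * (1 / 2) ^ (i + 1) ≤ en i (Sum.inl i : Ix J) *
            (2 * tt (Sum.inl (i + 1) : Ix J) + Mw M S g (Sum.inl (i + 1))) := by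
          rw [en_self, one_mul]
          show (2 : ℝ) * (1 / 2) ^ (i + 1) ≤ 2 * (1 / 2) ^ (i + 1) + 0
          linarith
        linarith
      · exfalso
        apply hc
        rw [htab, if_neg c1, if_neg c2, if_neg c3, if_neg c4]
        ring
    · -- `inl i`, `inr w`
      by_cases hi : i = n
      · subst hi
        have h1 := hK.low i w
        have h2 := wa i le_rfl (Sum.inr w)
        have h3 : |c (Sum.inl i) (Sum.inl i) (Sum.inr w)| * (L i ^ k * L i ^ 10) /
            (κI L S g (Sum.inl i) * κI L S g (Sum.inr w) *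
              (rI L g (Sum.inl i) ^ k + rI L g (Sum.inr w) ^ k)) ≤ Mw M S g (Sum.inr w) := by
          rw [mul_div_assoc]
          refine mul_le_mul h1 h2 ?_ (hM0 _)
          exact div_nonneg (by have := hL0 i; positivity) (hden _ _).le
        have h7 : Mw M S g (Sum.inr w) ≤ en i (Sum.inl i : Ix J) *
            (2 * tt (Sum.inr w) + Mw M S g (Sum.inr w)) := by
          rw [en_self, one_mul]
          have := htt (Sum.inr w)
          linarith
        linarith
      · have h3 : n ≤ g w + 2 := by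
          by_contra hcon
          have h4 := hK.sep n (Sum.inl i) (Sum.inr w) hc (fun w' h => by cases h)
            (fun w' h => by
              rw [← Sum.inr.inj h]
              omega) (Or.inr ⟨w, rfl⟩)
          exact hi (Sum.inl.inj h4)
        have h4 := dall (Sum.inl i) (Sum.inr w)
        have h5 := high w h3 (Sum.inl i)
        have h6 : M n * (L n ^ k * L n ^ 10) * (kv L S g (Sum.inl i) * kv L S g (Sum.inr w)) =
          M n * (L n ^ k * L n ^ 10) * ((S (g w))⁻¹ * kv L S g (Sum.inl i)) := by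
          have : kv L S g (Sum.inr w) = (S (g w))⁻¹ := rfl
          rw [this]; ring
        have h7 : kv L S g (Sum.inl i) * VV L M S g k (Sum.inr w) =
          VV L M S g k (Sum.inr w) * kv L S g (Sum.inl i) := mul_comm _ _
        linarith
  · rcases b with j | w'
    · have h3 : n ≤ g w + 2 := by
        by_contra hcon
        have h4 := hK.sep n (Sum.inr w) (Sum.inl j) hc (fun w' h => by
            rw [← Sum.inr.inj h]
            omega) (fun w' h => by cases h) (Or.inl ⟨w, rfl⟩)
        cases h4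
      have h4 := dall (Sum.inr w) (Sum.inl j)
      have h5 := high w h3 (Sum.inl j)
      have h6 : kv L S g (Sum.inr w) = (S (g w))⁻¹ := rfl
      rw [h6] at h4
      linarith
    · have h3 : n ≤ g w + 2 ∨ n ≤ g w' + 2 := by
        by_contra hcon
        push Not at hcon
        have h4 := hK.sep n (Sum.inr w) (Sum.inr w') hc (fun w'' h => by
            rw [← Sum.inr.inj h]
            omega) (fun w'' h => by
            rw [← Sum.inr.inj h]
            omega) (Or.inl ⟨w, rfl⟩)
        cases h4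
      have h4 := dall (Sum.inr w) (Sum.inr w')
      rcases h3 with h3 | h3
      · have h5 := high w h3 (Sum.inr w')
        have h6 : kv L S g (Sum.inr w) = (S (g w))⁻¹ := rfl
        rw [h6] at h4
        linarith
      · have h5 := high w' h3 (Sum.inr w)
        have h6 : M n * (L n ^ k * L n ^ 10) * (kv L S g (Sum.inr w) * kv L S g (Sum.inr w')) =
          M n * (L n ^ k * L n ^ 10) * ((S (g w'))⁻¹ * kv L S g (Sum.inr w)) := by
          have : kv L S g (Sum.inr w') = (S (g w'))⁻¹ := rfl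
          rw [this]; ring
        have h7 : kv L S g (Sum.inr w) * VV L M S g k (Sum.inr w') =
          VV L M S g k (Sum.inr w') * kv L S g (Sum.inr w) := mul_comm _ _
        linarith

/-- the bound of the other rows -/
theorem row_inr (hK : Kern g L C B M c) (hs : Seq lm L C ℓ M B) (hS : Big L M S)
    (hS1 : ∀ m, 1 ≤ S m) (k : ℕ) (w : J) (a b : Ix J) :
    |c (Sum.inr w) a b| * (L (g w) ^ k * S (g w)) /
      (κI L S g a * κI L S g b * (rI L g a ^ k + rI L g b ^ k)) ≤
    QQ L M k * S (g w) ^ 2 * (kv L S g a * kv L S g b) := by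
  have hM0 : ∀ m, 0 ≤ M m := fun m => zero_le_one.trans (hs.M_one m)
  have hL0 : ∀ m, 0 < L m := fun m => lt_of_lt_of_le one_pos (L_one hs m)
  have hS0 : ∀ m, 0 < S m := fun m => lt_of_lt_of_le one_pos (hS1 m)
  have h1 := kv_pos (g := g) hs hS1 a
  have h2 := kv_pos (g := g) hs hS1 b
  have h3 : kv L S g a * κI L S g a = 1 := inv_mul_cancel₀ (by linarith [h1.2.2])
  have h4 : kv L S g b * κI L S g b = 1 := inv_mul_cancel₀ (by linarith [h2.2.2])
  have h5 : 1 ≤ rI L g a ^ k := one_le_pow₀ (L_one hs _)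
  have h6 : 1 ≤ rI L g b ^ k := one_le_pow₀ (L_one hs _)
  have h7 : |c (Sum.inr w) a b| ≤ M (g w) := hK.size _ _ _
  have hQ := QQ_one hs k
  have hx := XX_one hs (g w)
  -- the size
  have h8 : M (g w) * L (g w) ^ k ≤ QQ L M k * S (g w) := by
    have h9 : M (g w) ≤ XX L M (g w) := (M_mono' hs (by omega)).trans (M_le_XX hs _)
    have h10 : L (g w) ≤ XX L M (g w) := (L_mono hs (by omega)).trans (L_le_XX hs _)
    have h11 := hL0 (g w)
    have h12 : (1 : ℝ) ≤ 2 ^ (g w) := one_le_pow₀ (by norm_num)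
    calc M (g w) * L (g w) ^ k ≤ XX L M (g w) * XX L M (g w) ^ k := by gcongr
      _ = XX L M (g w) ^ (k + 1) := by ring
      _ ≤ XX L M (g w) ^ (k + 12) := pow_le_pow_right₀ hx (by omega)
      _ ≤ QQ L M k * XX L M (g w) ^ (g w + 20) := XX_pow hs k (g w)
      _ = QQ L M k * (1 * XX L M (g w) ^ (g w + 20)) := by ring
      _ ≤ QQ L M k * (2 ^ (g w) * XX L M (g w) ^ (g w + 20)) := by gcongr
      _ ≤ QQ L M k * S (g w) := by
          have := hS (g w)
          gcongr
  have hden : 0 < κI L S g a * κI L S g b * (rI L g a ^ k + rI L g b ^ k) := by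
    have := h1.2.2
    have := h2.2.2
    positivity
  rw [div_le_iff₀ hden]
  have h9 := hS0 (g w)
  have h10 := hL0 (g w)
  calc |c (Sum.inr w) a b| * (L (g w) ^ k * S (g w)) ≤ M (g w) * (L (g w) ^ k * S (g w)) := by gcongr
    _ = (M (g w) * L (g w) ^ k) * S (g w) := by ring
    _ ≤ QQ L M k * S (g w) * S (g w) := by gcongr
    _ = QQ L M k * S (g w) ^ 2 * 1 := by ring
    _ ≤ QQ L M k * S (g w) ^ 2 * (rI L g a ^ k + rI L g b ^ k) := by
        gcongr
        linarith
    _ = QQ L M k * S (g w) ^ 2 * ((kv L S g a * κI L S g a) * (kv L S g b * κI L S g b) *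
        (rI L g a ^ k + rI L g b ^ k)) := by rw [h3, h4]; ring
    _ = _ := by ring

theorem t_HK : S_HK := by
  intro J g lm L C ℓ M B c hK hs
  refine ⟨fun m => 2 ^ m * XX L M m ^ (m + 20), fun S hS hS1 k => ?_⟩
  have hB : Big L M S := hS
  have hkv := kv_sum hK hs hB hS1
  have htt := (tt_sum : Summable (tt : Ix J → ℝ))
  have hMw := Mw_sum hK hs hB hS1
  have hVV := VV_sum hK hs hB hS1 k
  have hM0 : ∀ m, 0 ≤ M m := fun m => zero_le_one.trans (hs.M_one m)
  have hL0 : ∀ m, 0 < L m := fun m => lt_of_lt_of_le one_pos (L_one hs m)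
  have hS0 : ∀ m, 0 < S m := fun m => lt_of_lt_of_le one_pos (hS1 m)
  have kv0 : ∀ a : Ix J, 0 ≤ kv L S g a := fun a => (kv_pos hs hS1 a).1.le
  have tt0 : ∀ a : Ix J, 0 ≤ tt a := by
    intro a
    cases a with
    | inl i => show (0 : ℝ) ≤ (1 / 2) ^ i; positivity
    | inr w => exact le_rfl
  have Mw0 : ∀ a : Ix J, 0 ≤ Mw M S g a := by
    intro a
    cases a with
    | inl i => exact le_rfl
    | inr w => exact mul_nonneg (hM0 _) (inv_pos.2 (hS0 _)).le
  have VV0 : ∀ a : Ix J, 0 ≤ VV L M S g k a := by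
    intro a
    cases a with
    | inl i => exact le_rfl
    | inr w =>
      exact mul_nonneg (mul_nonneg (hM0 _) (pow_nonneg (hL0 _).le _)) (inv_pos.2 (hS0 _)).le
  have hr : ∀ a : Ix J, 1 ≤ rI L g a ^ k := fun a => one_le_pow₀ (L_one hs _)
  have hnn : ∀ (i : Ix J) (p : Ix J × Ix J), 0 ≤ |c i p.1 p.2| * (rI L g i ^ k * κI L S g i) /
      (κI L S g p.1 * κI L S g p.2 * (rI L g p.1 ^ k + rI L g p.2 ^ k)) := by
    intro i p
    have h1 := (kv_pos (g := g) hs hS1 p.1).2.2
    have h2 := (kv_pos (g := g) hs hS1 p.2).2.2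
    have h3 := hr p.1
    have h4 := hr p.2
    have h5 := hr i
    have h6 := (kv_pos (g := g) hs hS1 i).2.2
    positivity
  -- the majorants
  set D : ℝ := 2 + L (k + 5) ^ (k + 10) with hD
  have m2 : Summable fun p : Ix J × Ix J => tt p.1 * tt p.2 := htt.mul_of_nonneg htt tt0 tt0
  have m3 : Summable fun p : Ix J × Ix J => VV L M S g k p.1 * kv L S g p.2 :=
    hVV.mul_of_nonneg hkv VV0 kv0
  have m4 : Summable fun p : Ix J × Ix J => kv L S g p.1 * VV L M S g k p.2 :=
    hkv.mul_of_nonneg hVV kv0 VV0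
  have m5 : Summable fun p : Ix J × Ix J => kv L S g p.1 * kv L S g p.2 :=
    hkv.mul_of_nonneg hkv kv0 kv0
  have hb : Summable fun b : Ix J => 2 * tt b + Mw M S g b := (htt.mul_left 2).add hMw
  have hb0 : ∀ b : Ix J, 0 ≤ 2 * tt b + Mw M S g b := fun b => by
    have := tt0 b
    have := Mw0 b
    positivity
  set K1 : ℝ := ∑' b : Ix J, (2 * tt b + Mw M S g b) with hK1
  set K2 : ℝ := ∑' p : Ix J × Ix J, tt p.1 * tt p.2 with hK2
  set K3 : ℝ := ∑' p : Ix J × Ix J, (VV L M S g k p.1 * kv L S g p.2 + kv L S g p.1 * VV L M S g k p.2)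
    with hK3
  set K5 : ℝ := ∑' p : Ix J × Ix J, kv L S g p.1 * kv L S g p.2 with hK5
  have k1 : 0 ≤ K1 := tsum_nonneg hb0
  have k2 : 0 ≤ K2 := tsum_nonneg fun p => mul_nonneg (tt0 _) (tt0 _)
  have k3 : 0 ≤ K3 := tsum_nonneg fun p => add_nonneg (mul_nonneg (VV0 _) (kv0 _))
    (mul_nonneg (kv0 _) (VV0 _))
  have k5 : 0 ≤ K5 := tsum_nonneg fun p => mul_nonneg (kv0 _) (kv0 _)
  have hD0 : 0 ≤ D := by
    have := hL0 (k + 5)
    positivity
  have hQ := QQ_one hs k
  refine ⟨(K1 + D * K2 + K3) + QQ L M k * K5, fun i => ?_⟩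
  cases i with
  | inl n =>
    have m1 : Summable fun p : Ix J × Ix J => en n p.1 * (2 * tt p.2 + Mw M S g p.2) :=
      (en_sum n).summable.mul_of_nonneg hb (en_nonneg n) hb0
    have e1 : ∑' p : Ix J × Ix J, en n p.1 * (2 * tt p.2 + Mw M S g p.2) = K1 := by
      rw [← Summable.tsum_mul_tsum (en_sum n).summable hb m1, (en_sum n).tsum_eq, one_mul]
    have hrow : ∀ p : Ix J × Ix J, |c (Sum.inl n) p.1 p.2| * (rI L g (Sum.inl n) ^ k *
        κI L S g (Sum.inl n)) / (κI L S g p.1 * κI L S g p.2 * (rI L g p.1 ^ k + rI L g p.2 ^ k)) ≤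
        en n p.1 * (2 * tt p.2 + Mw M S g p.2) + D * (tt p.1 * tt p.2) +
          (VV L M S g k p.1 * kv L S g p.2 + kv L S g p.1 * VV L M S g k p.2) := fun p =>
      row_inl hK hs hB hS1 k n p.1 p.2
    have hsum := (m1.add (m2.mul_left D)).add (m3.add m4)
    have hS1' := Summable.of_nonneg_of_le (hnn (Sum.inl n)) hrow hsum
    refine ⟨hS1', ?_⟩
    refine (hS1'.tsum_le_tsum hrow hsum).trans ?_
    rw [(m1.add (m2.mul_left D)).tsum_add (m3.add m4), m1.tsum_add (m2.mul_left D), e1,
      tsum_mul_left]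
    have h1 : 0 ≤ √(dI ℓ S g (Sum.inl n)) := Real.sqrt_nonneg _
    have h2 : 0 ≤ K1 + D * K2 + K3 := by positivity
    have h3 : 0 ≤ QQ L M k * K5 := by positivity
    have h4 : 0 ≤ ((K1 + D * K2 + K3) + QQ L M k * K5) * √(dI ℓ S g (Sum.inl n)) := by positivity
    have h5 : K1 + D * K2 + K3 ≤ ((K1 + D * K2 + K3) + QQ L M k * K5) *
      (1 + √(dI ℓ S g (Sum.inl n))) := by linarith
    exact h5
  | inr w =>
    have hrow : ∀ p : Ix J × Ix J, |c (Sum.inr w) p.1 p.2| * (rI L g (Sum.inr w) ^ k *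
        κI L S g (Sum.inr w)) / (κI L S g p.1 * κI L S g p.2 * (rI L g p.1 ^ k + rI L g p.2 ^ k)) ≤
        QQ L M k * S (g w) ^ 2 * (kv L S g p.1 * kv L S g p.2) := fun p =>
      row_inr hK hs hB hS1 k w p.1 p.2
    have hsum := m5.mul_left (QQ L M k * S (g w) ^ 2)
    have hS1' := Summable.of_nonneg_of_le (hnn (Sum.inr w)) hrow hsum
    refine ⟨hS1', ?_⟩
    refine (hS1'.tsum_le_tsum hrow hsum).trans ?_
    rw [tsum_mul_left]
    have h1 : √(dI ℓ S g (Sum.inr w)) = S (g w) ^ 2 := by
      show √(S (g w) ^ 4) = _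
      rw [show S (g w) ^ 4 = (S (g w) ^ 2) ^ 2 by ring, Real.sqrt_sq (sq_nonneg _)]
    rw [h1]
    have h2 : 0 ≤ K1 + D * K2 + K3 := by positivity
    have h3 : 0 ≤ QQ L M k * K5 := by positivity
    have h4 : 0 ≤ S (g w) ^ 2 := sq_nonneg _
    have h5 : 0 ≤ (K1 + D * K2 + K3) * (1 + S (g w) ^ 2) := by positivity
    have e : QQ L M k * S (g w) ^ 2 * K5 = QQ L M k * K5 * S (g w) ^ 2 := by ring
    have h6 : QQ L M k * S (g w) ^ 2 * K5 ≤ ((K1 + D * K2 + K3) + QQ L M k * K5) *
      (1 + S (g w) ^ 2) := by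
      rw [e]
      nlinarith
    exact h6

end Pool.Agent.Y494.ND.HK
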