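import Pool.Agent.Y494.ND.Pert2

/-!
Job S_PERT of the project NS/D.
-/

open Set Filter Topology

set_option autoImplicit false
set_option linter.all false

namespace Pool.Agent.Y494.ND

open Pool.Agent.Y5.D

variable {J : Type} {g : J → ℕ} {lm L C ℓ M S φ ψ : ℕ → ℝ} {B : ℕ → ℕ → ℝ}
  {c : Ix J → Ix J → Ix J → ℝ}

theorem kap_pos (hs : Seq lm L C ℓ M B) (hS : ∀ m, 1 ≤ S m) (a : Ix J) : 1 ≤ κI L S g a := by
  cases a with
  | inl n => exact one_le_pow₀ (L_one hs n)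
  | inr w => exact hS _

theorem M_pos (hs : Seq lm L C ℓ M B) (a : Ix J) : 1 ≤ M (gr g a) := hs.M_one _

theorem kap_sum (hK : Kern g L C B M c) (hs : Seq lm L C ℓ M B) (hS : SS M S φ ψ) :
    Summable (fun a : Ix J => M (gr g a) ^ 2 * (κI L S g a)⁻¹) := by
  refine Summable.sum _ ?_ ?_
  · refine Summable.of_nonneg_of_le (fun n => ?_) (fun n => ?_) summable_geometric_two
    · have := kap_pos (g := g) hs hS.one (Sum.inl n)
      show 0 ≤ M n ^ 2 * (κI L S g (Sum.inl n))⁻¹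
      positivity
    · show M n ^ 2 * (L n ^ 10)⁻¹ ≤ (1 / 2) ^ n
      have h1 := L_one hs n
      have h2 := M_L4 hs n
      have h3 := L_geo hs n
      have h4 := hs.M_one n
      have h5 : M n ^ 2 ≤ L n ^ 8 := by
        calc M n ^ 2 ≤ (L n ^ 4) ^ 2 := by gcongr
          _ = L n ^ 8 := by ring
      rw [← div_eq_mul_inv, div_le_iff₀ (by positivity)]
      have h6 : (1 : ℝ) ≤ (1 / 2) ^ n * L n := by
        rw [one_div, inv_pow]
        rw [← div_eq_inv_mul, le_div_iff₀ (by positivity), one_mul]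
        exact h3
      calc M n ^ 2 ≤ L n ^ 8 := h5
        _ = 1 * L n ^ 8 * 1 := by ring
        _ ≤ ((1 / 2) ^ n * L n) * L n ^ 8 * L n := by gcongr
        _ = _ := by ring
  · refine (grp' hK hs (h := fun m => M m ^ 2 * (S m)⁻¹) (t := 1) (fun m => ?_) (fun m => ?_)).1
    · have := hS.one m
      have := hs.M_one m
      positivity
    · have hM := hs.M_one m
      have hmm : M m ≤ M (m + 2) := M_mono' hs (by omega)
      have hSp : 0 < S m := lt_of_lt_of_le one_pos (hS.one m)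
      have hm : (0 : ℝ) ≤ m := Nat.cast_nonneg m
      have hX := hs.M_one (m + 2)
      rw [← div_eq_mul_inv, mul_div_assoc', half_pow]
      refine quo (P := 2 ^ (m + 4)) (Y := M (m + 2) ^ 4 * ((m : ℝ) + 5)) (by positivity) hSp ?_ ?_
      · calc M m * M m ^ 2 ≤ M (m + 2) * M (m + 2) ^ 2 := by gcongr
          _ ≤ M (m + 2) ^ 4 * 1 := by
            nlinarith [pow_le_pow_right₀ (hs.M_one (m + 2)) (show 3 ≤ 4 by norm_num)]
          _ ≤ M (m + 2) ^ 4 * ((m : ℝ) + 5) := by gcongr; linarith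
      · rw [mul_one, ← mul_assoc]
        exact hS.k1 m

theorem kap_le (hs : Seq lm L C ℓ M B) (hS : ∀ m, 1 ≤ S m) (a : Ix J) :
    M (gr g a) * (κI L S g a)⁻¹ ≤ M (gr g a) ^ 2 * (κI L S g a)⁻¹ ∧
    (κI L S g a)⁻¹ ≤ M (gr g a) ^ 2 * (κI L S g a)⁻¹ ∧ 0 < (κI L S g a)⁻¹ ∧
    (κI L S g a)⁻¹ ≤ 1 := by
  have h1 := kap_pos (g := g) hs hS a
  have h2 := M_pos (g := g) hs a
  have h3 : 0 < (κI L S g a)⁻¹ := by positivity
  refine ⟨?_, ?_, h3, inv_le_one_of_one_le₀ h1⟩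
  · refine mul_le_mul_of_nonneg_right ?_ h3.le
    nlinarith
  · have : (1 : ℝ) ≤ M (gr g a) ^ 2 := one_le_pow₀ h2
    nlinarith

/-- the energy on a compact interval -/
theorem energy (hK : Kern g L C B M c) (hs : Seq lm L C ℓ M B) (hS : SS M S φ ψ) {T T' : ℝ}
    (hT : T' < T) {z : Ix J → ℝ → ℝ} (hz : ASol (dI ℓ S g) (κI L S g) c T z) (hi : Init z) :
    ∃ Z : Ix J → ℝ, Summable Z ∧ (∀ t ∈ Icc 0 T', ∀ a, |z a t| ≤ Z a) ∧
      (∀ t ∈ Icc 0 T', Summable (fun a => z a t ^ 2)) ∧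
      ∀ t ∈ Ico 0 T', Summable (fun a => dI ℓ S g a * z a t ^ 2) ∧
        HasDerivWithinAt (fun τ => ∑' a, z a τ ^ 2)
          (-(2 * ∑' a, dI ℓ S g a * z a t ^ 2)) (Ico 0 T') t := by
  obtain ⟨M₀, hM₀⟩ := hz.bdd T' hT
  set Mx := max M₀ 0 with hMx
  have hMx0 : 0 ≤ Mx := le_max_right _ _
  have hkap := kap_sum (c := c) hK hs hS
  set Z : Ix J → ℝ := fun a => Mx * (κI L S g a)⁻¹ with hZ
  have hk1 : ∀ a, 0 < κI L S g a := fun a => lt_of_lt_of_le one_pos (kap_pos hs hS.one a)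
  have hkl := fun a => kap_le (g := g) (S := S) hs hS.one a
  have hkinv : Summable (fun a : Ix J => (κI L S g a)⁻¹) :=
    Summable.of_nonneg_of_le (fun a => (hkl a).2.2.1.le) (fun a => (hkl a).2.1) hkap
  have hZs : Summable Z := hkinv.mul_left _
  have hZ0 : ∀ a, 0 ≤ Z a := fun a => mul_nonneg hMx0 (hkl a).2.2.1.le
  have hzZ : ∀ t ∈ Icc 0 T', ∀ a, |z a t| ≤ Z a := by
    intro t ht a
    have h1 := (hM₀ t ht a).trans (le_max_left M₀ 0)
    show |z a t| ≤ Mx * (κI L S g a)⁻¹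
    rw [← div_eq_mul_inv, le_div_iff₀ (hk1 a), mul_comm]
    exact h1
  have hZ2 : Summable (fun a => Z a ^ 2) := by
    refine Summable.of_nonneg_of_le (fun a => sq_nonneg _) (fun a => ?_) (hkinv.mul_left (Mx ^ 2))
    have h1 := (hkl a).2.2.2
    have h2 := (hkl a).2.2.1
    show (Mx * (κI L S g a)⁻¹) ^ 2 ≤ Mx ^ 2 * (κI L S g a)⁻¹
    rw [mul_pow]
    refine mul_le_mul_of_nonneg_left ?_ (sq_nonneg _)
    nlinarith
  have hMZ : Summable (fun a => M (gr g a) * Z a) := by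
    refine Summable.of_nonneg_of_le (fun a => mul_nonneg (zero_le_one.trans (M_pos hs a)) (hZ0 a))
      (fun a => ?_) (hkap.mul_left Mx)
    have h1 := (hkl a).1
    calc M (gr g a) * Z a = Mx * (M (gr g a) * (κI L S g a)⁻¹) := by simp only [hZ]; ring
      _ ≤ _ := by gcongr
  set E' := ∑' a, Z a ^ 2 with hE'
  have hE'0 : 0 ≤ E' := tsum_nonneg fun a => sq_nonneg _
  have hz2 : ∀ t ∈ Icc 0 T', Summable (fun a => z a t ^ 2) := by
    intro t ht
    refine Summable.of_nonneg_of_le (fun a => sq_nonneg _) (fun a => ?_) hZ2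
    rw [← sq_abs]
    have := hzZ t ht a
    gcongr
  have hE : ∀ t ∈ Icc 0 T', ∑' a, z a t ^ 2 ≤ E' := by
    intro t ht
    refine (hz2 t ht).tsum_le_tsum (fun a => ?_) hZ2
    rw [← sq_abs]
    have := hzZ t ht a
    gcongr
  have hq : ∀ t ∈ Icc 0 T', ∀ a, |qd c (fun b => z b t) a| ≤ M (gr g a) * E' := by
    intro t ht a
    refine (hK.quad a (fun b => z b t) (hz2 t ht)).trans ?_
    exact mul_le_mul_of_nonneg_left (hE t ht) (zero_le_one.trans (M_pos hs a))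
  have hsub : Ico 0 T' ⊆ Ico 0 T := Ico_subset_Ico_right hT.le
  have hsubI : Ico 0 T' ⊆ Icc 0 T' := Ico_subset_Icc_self
  have hder : ∀ a, ∀ t ∈ Ico 0 T', HasDerivWithinAt (z a) (-(dI ℓ S g a * z a t) +
      qd c (fun b => z b t) a) (Ico 0 T') t := fun a t ht => (hz.deriv a t (hsub ht)).mono hsub
  have hzw : ∀ w, ∀ t ∈ Ico 0 T', |z (Sum.inr w) t| ≤ M (g w) * E' / S (g w) ^ 4 := by
    intro w
    have hSp : 0 < S (g w) ^ 4 := pow_pos (lt_of_lt_of_le one_pos (hS.one _)) 4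
    exact damped (x := z (Sum.inr w)) (q := fun t => qd c (fun b => z b t) (Sum.inr w)) hSp
      (hder (Sum.inr w)) (fun t ht => hq t (hsubI ht) (Sum.inr w)) (hi.2.2 w)
  -- the dissipation
  have hd0 : ∀ a : Ix J, 0 ≤ dI ℓ S g a := by
    intro a
    cases a with
    | inl n => exact hs.ℓ_nonneg n
    | inr w => exact pow_nonneg (zero_le_one.trans (hS.one _)) 4
  have hD : ∀ t ∈ Ico 0 T', ∀ a, dI ℓ S g a * z a t ^ 2 ≤
      (Mx ^ 2 + E' ^ 2) * (M (gr g a) ^ 2 * (κI L S g a)⁻¹) := by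
    intro t ht a
    have h1 := hkl a
    have hmain : dI ℓ S g a * z a t ^ 2 ≤ Mx ^ 2 * (κI L S g a)⁻¹ ∨
        dI ℓ S g a * z a t ^ 2 ≤ E' ^ 2 * (M (gr g a) ^ 2 * (κI L S g a)⁻¹) := by
      cases a with
      | inl n =>
        left
        have h2 := hzZ t (hsubI ht) (Sum.inl n)
        have h3 := ell_le hs n
        have h4 := L_one hs n
        have h5 := hs.ℓ_nonneg n
        show ℓ n * z (Sum.inl n) t ^ 2 ≤ Mx ^ 2 * (L n ^ 10)⁻¹
        have h6 : z (Sum.inl n) t ^ 2 ≤ (Mx * (L n ^ 10)⁻¹) ^ 2 := by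
          rw [← sq_abs]
          have h7 : |z (Sum.inl n) t| ≤ Mx * (L n ^ 10)⁻¹ := h2
          gcongr
        calc ℓ n * z (Sum.inl n) t ^ 2 ≤ L n ^ 10 * (Mx * (L n ^ 10)⁻¹) ^ 2 := by
              refine mul_le_mul (h3.trans ?_) h6 (sq_nonneg _) (by positivity)
              exact le_self_pow₀ h4 (by norm_num)
          _ = Mx ^ 2 * (L n ^ 10)⁻¹ := by
              have : L n ≠ 0 := by positivity
              field_simp
      | inr w =>
        right
        have h2 := hzw w t ht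
        have h4 := hS.one (g w)
        show S (g w) ^ 4 * z (Sum.inr w) t ^ 2 ≤ E' ^ 2 * (M (g w) ^ 2 * (S (g w))⁻¹)
        have h6 : z (Sum.inr w) t ^ 2 ≤ (M (g w) * E' / S (g w) ^ 4) ^ 2 := by
          rw [← sq_abs]
          gcongr
        have h7 : (0 : ℝ) < S (g w) := by linarith
        have h8 := hs.M_one (g w)
        calc S (g w) ^ 4 * z (Sum.inr w) t ^ 2 ≤ S (g w) ^ 4 * (M (g w) * E' / S (g w) ^ 4) ^ 2 := by
              gcongr
          _ = E' ^ 2 * (M (g w) ^ 2 * (S (g w) ^ 4)⁻¹) := by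
              field_simp
          _ ≤ E' ^ 2 * (M (g w) ^ 2 * (S (g w))⁻¹) := by
              gcongr
              exact le_self_pow₀ h4 (by norm_num)
    have h2 : 0 ≤ Mx ^ 2 * (M (gr g a) ^ 2 * (κI L S g a)⁻¹) := by
      have := h1.2.2.1.le
      positivity
    have h3 : 0 ≤ E' ^ 2 * (M (gr g a) ^ 2 * (κI L S g a)⁻¹) := by
      have := h1.2.2.1.le
      positivity
    rw [add_mul]
    rcases hmain with h | h
    · have h4 := mul_le_mul_of_nonneg_left h1.2.1 (sq_nonneg Mx)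
      linarith
    · linarith
  have hzq : ∀ t ∈ Ico 0 T', ∀ a, |z a t * qd c (fun b => z b t) a| ≤
      Mx * E' * (M (gr g a) ^ 2 * (κI L S g a)⁻¹) := by
    intro t ht a
    rw [abs_mul]
    calc |z a t| * |qd c (fun b => z b t) a| ≤ Z a * (M (gr g a) * E') :=
          mul_le_mul (hzZ t (hsubI ht) a) (hq t (hsubI ht) a) (abs_nonneg _) (hZ0 a)
      _ = Mx * E' * (M (gr g a) * (κI L S g a)⁻¹) := by simp only [hZ]; ring
      _ ≤ _ := mul_le_mul_of_nonneg_left (hkl a).1 (mul_nonneg hMx0 hE'0)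
  refine ⟨Z, hZs, hzZ, hz2, ?_⟩
  intro t ht
  have hsd : Summable (fun a => dI ℓ S g a * z a t ^ 2) :=
    Summable.of_nonneg_of_le (fun a => mul_nonneg (hd0 a) (sq_nonneg _)) (hD t ht)
      (hkap.mul_left _)
  refine ⟨hsd, ?_⟩
  have hanti := anti_sum hK (z := fun b => z b t) (fun a => hzZ t (hsubI ht) a) hZs hMZ
  have hderiv := hasDerivWithinAt_tsum' (I := Ix J) (S := Ico 0 T') (convex_Ico 0 T')
    (f := fun a τ => z a τ ^ 2)
    (f' := fun a τ => 2 * z a τ * (-(dI ℓ S g a * z a τ) + qd c (fun b => z b τ) a))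
    (u := fun a => (2 * (Mx ^ 2 + E' ^ 2) + 2 * (Mx * E')) * (M (gr g a) ^ 2 * (κI L S g a)⁻¹))
    (hkap.mul_left _) (by
      intro a τ hτ
      have h1 := (hder a τ hτ).pow 2
      refine h1.congr_deriv ?_
      norm_num) (by
      intro a τ hτ
      have h1 := hD τ hτ a
      have h2 := hzq τ hτ a
      have h3 : 0 ≤ dI ℓ S g a * z a τ ^ 2 := mul_nonneg (hd0 a) (sq_nonneg _)
      have e : 2 * z a τ * (-(dI ℓ S g a * z a τ) + qd c (fun b => z b τ) a) =
        -(2 * (dI ℓ S g a * z a τ ^ 2)) + 2 * (z a τ * qd c (fun b => z b τ) a) := by ring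
      rw [e]
      refine (abs_add_le _ _).trans ?_
      have e1 : |-(2 * (dI ℓ S g a * z a τ ^ 2))| = 2 * (dI ℓ S g a * z a τ ^ 2) := by
        rw [abs_neg, abs_of_nonneg (by linarith)]
      have e2 : |2 * (z a τ * qd c (fun b => z b τ) a)| = 2 * |z a τ * qd c (fun b => z b τ) a| := by
        rw [abs_mul, abs_two]
      rw [e1, e2]
      linarith) (fun τ hτ => hz2 τ (hsubI hτ)) ht
  refine hderiv.congr_deriv ?_
  have e : ∀ a, 2 * z a t * (-(dI ℓ S g a * z a t) + qd c (fun b => z b t) a) =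
      -(2 * (dI ℓ S g a * z a t ^ 2)) + 2 * (z a t * qd c (fun b => z b t) a) := by
    intro a; ring
  rw [tsum_congr e, Summable.tsum_add (hsd.mul_left 2).neg (hanti.1.mul_left 2), tsum_neg,
    tsum_mul_left, tsum_mul_left, hanti.2]
  ring

theorem t_PERT : S_PERT := by
  classical
  intro J g lm L C ℓ M B c φ hK hs hφ
  obtain ⟨S₀, ψ, hS₀⟩ := SS_exists M φ hφ hs.M_one
  refine ⟨S₀, fun S hSS hS1 T z hz hi => ?_⟩
  have hS := hS₀ S hSS hS1
  have hmid : ∀ t ∈ Ico 0 T, ∃ T', t < T' ∧ T' < T := fun t ht =>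
    ⟨(t + T) / 2, by linarith [ht.2], by linarith [ht.2]⟩
  -- energy
  have hE2 : ∀ t ∈ Ico 0 T, Summable (fun a => dI ℓ S g a * z a t ^ 2) ∧
      HasDerivWithinAt (fun τ => ∑' a, z a τ ^ 2)
      (-(2 * ∑' a, dI ℓ S g a * z a t ^ 2)) (Ico 0 T) t := by
    intro t ht
    obtain ⟨T', hT1, hT2⟩ := hmid t ht
    obtain ⟨Z, _, _, _, h4⟩ := energy hK hs hS hT2 hz hi
    obtain ⟨h5, h6⟩ := h4 t ⟨ht.1, hT1⟩
    refine ⟨h5, h6.mono_of_mem_nhdsWithin ?_⟩
    have h7 : Ico 0 T ∩ Iio T' ∈ 𝓝[Ico 0 T] t :=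
      inter_mem_nhdsWithin _ (Iio_mem_nhds hT1)
    refine mem_of_superset h7 ?_
    rintro s ⟨hs1, hs2⟩
    exact ⟨hs1.1, hs2⟩
  have hE1 : ∀ t ∈ Ico 0 T, Summable (fun a => z a t ^ 2) := by
    intro t ht
    obtain ⟨T', hT1, hT2⟩ := hmid t ht
    obtain ⟨Z, _, _, h3, _⟩ := energy hK hs hS hT2 hz hi
    exact h3 t ⟨ht.1, hT1.le⟩
  have hd0 : ∀ a : Ix J, 0 ≤ dI ℓ S g a := by
    intro a
    cases a with
    | inl n => exact hs.ℓ_nonneg n
    | inr w => exact pow_nonneg (zero_le_one.trans (hS.one _)) 4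
  have hE0 : ∑' a, z a 0 ^ 2 = 1 := by
    rw [tsum_eq_single (Sum.inl 0)]
    · rw [hi.1, one_pow]
    · intro a ha
      cases a with
      | inl n =>
        cases n with
        | zero => exact absurd rfl ha
        | succ n => rw [hi.2.1 n]; norm_num
      | inr w => rw [hi.2.2 w]; norm_num
  have hEle : ∀ t ∈ Ico 0 T, ∑' a, z a t ^ 2 ≤ 1 := by
    intro t ht
    have h1 : MonotoneOn (fun τ => -∑' a, z a τ ^ 2) (Ico 0 T) := by
      refine mono_of (f' := fun τ => 2 * ∑' a, dI ℓ S g a * z a τ ^ 2) ?_ ?_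
      · intro τ hτ
        have := (hE2 τ hτ).2.neg
        rw [neg_neg] at this
        exact this
      · intro τ hτ
        exact mul_nonneg zero_le_two (tsum_nonneg fun a => mul_nonneg (hd0 a) (sq_nonneg _))
    have h2 := h1 ⟨le_rfl, ht.1.trans_lt ht.2⟩ ht ht.1
    simp only at h2
    rw [hE0] at h2
    linarith
  have hw : ∀ w, ∀ t ∈ Ico 0 T, |z (Sum.inr w) t| ≤ M (g w) / S (g w) ^ 4 := by
    intro w
    have hSp : 0 < S (g w) ^ 4 := pow_pos (lt_of_lt_of_le one_pos (hS.one _)) 4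
    refine damped (x := z (Sum.inr w)) (q := fun t => qd c (fun b => z b t) (Sum.inr w)) hSp
      (fun t ht => hz.deriv (Sum.inr w) t ht) (fun t ht => ?_) (hi.2.2 w)
    refine (hK.quad (Sum.inr w) (fun b => z b t) (hE1 t ht)).trans ?_
    have h1 : (0 : ℝ) ≤ M (gr g (Sum.inr w)) := zero_le_one.trans (hs.M_one _)
    have h2 := mul_le_mul_of_nonneg_left (hEle t ht) h1
    rw [mul_one] at h2
    exact h2
  refine ⟨fun t ht => ⟨hE1 t ht, hEle t ht⟩, hE2, ?_, ?_⟩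
  · intro w t ht
    refine (hw w t ht).trans ?_
    have h1 := hs.M_one (g w)
    have h2 : 0 < S (g w) ^ 4 := pow_pos (lt_of_lt_of_le one_pos (hS.one _)) 4
    gcongr
    exact le_self_pow₀ h1 (by norm_num)
  · refine ⟨fun n t => qd c (fun b => z b t) (Sum.inl n) -
      (vf3 L C ℓ B (fun m => z (Sum.inl m) t) n + ℓ n * z (Sum.inl n) t), ?_, ?_⟩
    · intro n t ht
      refine (hz.deriv (Sum.inl n) t ht).congr_deriv ?_
      show -(ℓ n * z (Sum.inl n) t) + qd c (fun a => z a t) (Sum.inl n) = _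
      ring
    · intro n t ht
      obtain ⟨T', hT1, hT2⟩ := hmid t ht
      obtain ⟨Z, hZ1, hZ2, _, _⟩ := energy hK hs hS hT2 hz hi
      refine f_bound hK hs hS (z := fun a => z a t) ?_ ?_ n ?_ ?_
      · intro i
        have h1 : z (Sum.inl i) t ^ 2 ≤ 1 :=
          ((hE1 t ht).le_tsum (Sum.inl i) fun _ _ => sq_nonneg _).trans (hEle t ht)
        rw [← sq_abs] at h1
        have h2 := abs_nonneg (z (Sum.inl i) t)
        nlinarith
      · intro w
        refine (hw w t ht).trans ?_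
        have h1 := hs.M_one (g w)
        have h2 := hS.one (g w)
        unfold h0
        gcongr
        exact le_self_pow₀ h2 (by norm_num)
      · exact qd_summable hK (fun a => hZ2 t ⟨ht.1, hT1.le⟩ a) hZ1 (Sum.inl n)
      · exact (hE1 t ht).comp_injective Sum.inl_injective

end Pool.Agent.Y494.ND
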