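import Pool.Agent.Y494.ND.Tools

/-!
Job S_PERT of the project NS/D: static estimates.
-/

open Set Filter Topology

set_option autoImplicit false
set_option linter.all false

namespace Pool.Agent.Y494.ND

open Pool.Agent.Y5.D

variable {J : Type} {g : J → ℕ} {lm L C ℓ M S φ : ℕ → ℝ} {B : ℕ → ℕ → ℝ} {c : Ix J → Ix J → Ix J → ℝ}

/-! ### Antisymmetry -/

theorem qd_summable (hK : Kern g L C B M c) {z Z : Ix J → ℝ} (hz : ∀ a, |z a| ≤ Z a)
    (h1 : Summable Z) (j : Ix J) : Summable fun p : Ix J × Ix J => c j p.1 p.2 * z p.1 * z p.2 := by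
  have hZ : ∀ a, 0 ≤ Z a := fun a => (abs_nonneg _).trans (hz a)
  have h2 : Summable fun p : Ix J × Ix J => M (gr g j) * (Z p.1 * Z p.2) :=
    (h1.mul_of_nonneg h1 hZ hZ).mul_left _
  refine Summable.of_norm_bounded h2 fun p => ?_
  rw [Real.norm_eq_abs, abs_mul, abs_mul, mul_assoc]
  exact mul_le_mul (hK.size _ _ _) (mul_le_mul (hz _) (hz _) (abs_nonneg _) (hZ _))
    (by positivity) ((abs_nonneg _).trans (hK.size j p.1 p.2))

theorem anti_sum (hK : Kern g L C B M c) {z Z : Ix J → ℝ} (hz : ∀ a, |z a| ≤ Z a)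
    (h1 : Summable Z) (h2 : Summable fun a => M (gr g a) * Z a) :
    Summable (fun j => z j * qd c z j) ∧ ∑' j, z j * qd c z j = 0 := by
  have hZ : ∀ a, 0 ≤ Z a := fun a => (abs_nonneg _).trans (hz a)
  have hM : ∀ j a b, 0 ≤ M (gr g j) := fun j a b => (abs_nonneg _).trans (hK.size j a b)
  let F : Ix J × (Ix J × Ix J) → ℝ := fun p => z p.1 * (c p.1 p.2.1 p.2.2 * z p.2.1 * z p.2.2)
  have hF : Summable F := by
    have h3 : Summable fun p : Ix J × (Ix J × Ix J) => (M (gr g p.1) * Z p.1) * (Z p.2.1 * Z p.2.2) :=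
      h2.mul_of_nonneg (h1.mul_of_nonneg h1 hZ hZ) (fun a => mul_nonneg (hM a a a) (hZ a))
        (fun p => mul_nonneg (hZ _) (hZ _))
    refine Summable.of_norm_bounded h3 fun p => ?_
    rw [Real.norm_eq_abs, abs_mul, abs_mul, abs_mul]
    calc |z p.1| * (|c p.1 p.2.1 p.2.2| * |z p.2.1| * |z p.2.2|)
        ≤ Z p.1 * (M (gr g p.1) * Z p.2.1 * Z p.2.2) := by
          refine mul_le_mul (hz _) ?_ (by positivity) (hZ _)
          refine mul_le_mul ?_ (hz _) (abs_nonneg _) (mul_nonneg (hM p.1 p.1 p.1) (hZ _))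
          exact mul_le_mul (hK.size _ _ _) (hz _) (abs_nonneg _) (hM p.1 p.1 p.1)
      _ = _ := by ring
  have e0 : ∀ j, ∑' p : Ix J × Ix J, F (j, p) = z j * qd c z j := by
    intro j
    unfold qd
    rw [← tsum_mul_left]
  have h3 := hF.prod
  have h4 : Summable (fun j => z j * qd c z j) := by
    refine h3.congr fun j => ?_
    rw [← e0]
  refine ⟨h4, ?_⟩
  have e1 : ∑' p, F p = ∑' j, z j * qd c z j := by
    rw [hF.tsum_prod]
    exact tsum_congr e0
  let e : Ix J × (Ix J × Ix J) ≃ Ix J × (Ix J × Ix J) :=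
    { toFun := fun p => (p.2.2, (p.2.1, p.1))
      invFun := fun p => (p.2.2, (p.2.1, p.1))
      left_inv := fun p => rfl
      right_inv := fun p => rfl }
  have e2 := e.tsum_eq F
  have e3 : ∀ p, F (e p) = -F p := by
    intro p
    show z p.2.2 * (c p.2.2 p.2.1 p.1 * z p.2.1 * z p.1) = -(z p.1 * (c p.1 p.2.1 p.2.2 * z p.2.1 * z p.2.2))
    rw [hK.anti p.2.2 p.2.1 p.1]
    ring
  rw [tsum_congr e3, tsum_neg] at e2
  rw [← e1]
  linarith

/-! ### The table -/

theorem tab_sum (hK : Kern g L C B M c) (hs : Seq lm L C ℓ M B) {z : Ix J → ℝ}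
    (hx : Summable fun i : ℕ => z (Sum.inl i) ^ 2) (n : ℕ) :
    ∑' p : ℕ × ℕ, c (Sum.inl n) (Sum.inl p.1) (Sum.inl p.2) * z (Sum.inl p.1) * z (Sum.inl p.2) =
      vf3 L C ℓ B (fun m => z (Sum.inl m)) n + ℓ n * z (Sum.inl n) := by
  classical
  set x : ℕ → ℝ := fun m => z (Sum.inl m) with hxd
  let P1 : ℕ × ℕ → ℝ := fun p => if p.1 = n ∧ p.2 < n then L p.2 * B p.2 n * x p.1 * x p.2 else 0
  let P2 : ℕ × ℕ → ℝ := fun p => if p.1 = p.2 ∧ n < p.1 then -(L n * B n p.1) * x p.1 * x p.2 else 0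
  let P3 : ℕ × ℕ → ℝ := fun p => if p.1 = p.2 ∧ n = p.1 + 1 then L p.1 * C p.1 * x p.1 * x p.2 else 0
  let P4 : ℕ × ℕ → ℝ := fun p => if p.1 = n ∧ p.2 = n + 1 then -(L n * C n) * x p.1 * x p.2 else 0
  have hP1 : HasSum P1 (∑ j ∈ Finset.range n, L j * B j n * x n * x j) := by
    have h1 : HasSum P1 (∑ p ∈ ({n} : Finset ℕ) ×ˢ Finset.range n, P1 p) := by
      refine hasSum_sum_of_ne_finset_zero fun p hp => ?_
      rw [Finset.mem_product, Finset.mem_singleton, Finset.mem_range] at hp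
      exact if_neg hp
    rw [Finset.sum_product, Finset.sum_singleton] at h1
    have e : ∑ j ∈ Finset.range n, P1 (n, j) = ∑ j ∈ Finset.range n, L j * B j n * x n * x j := by
      refine Finset.sum_congr rfl fun j hj => ?_
      exact if_pos ⟨rfl, Finset.mem_range.1 hj⟩
    rwa [e] at h1
  have hP2 : HasSum P2 (-(L n * ∑' m : ℕ, B n (n + 1 + m) * x (n + 1 + m) ^ 2)) := by
    have hi : Function.Injective (fun m : ℕ => (n + 1 + m, n + 1 + m)) := by
      intro a b hab
      have := congrArg Prod.fst hab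
      simp only at this
      omega
    rw [← hi.hasSum_iff]
    · have h1 : Summable fun m : ℕ => B n (n + 1 + m) * x (n + 1 + m) ^ 2 := by
        have h2 : Summable fun m : ℕ => 1001 / 1000 * x (n + 1 + m) ^ 2 :=
          (hx.comp_injective (i := fun m => n + 1 + m) (fun a b h => by simpa using h)).mul_left _
        refine Summable.of_nonneg_of_le (fun m => ?_) (fun m => ?_) h2
        · have := hs.B_lo n (n + 1 + m) (by omega)
          have h3 : 0 ≤ B n (n + 1 + m) := by linarith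
          positivity
        · exact mul_le_mul_of_nonneg_right (hs.B_hi n (n + 1 + m) (by omega)) (sq_nonneg _)
      have h2 := (h1.hasSum.mul_left (L n)).neg
      refine h2.congr_fun ?_
      intro m
      show (if n + 1 + m = n + 1 + m ∧ n < n + 1 + m then _ else _) = _
      rw [if_pos ⟨rfl, by omega⟩]
      ring
    · intro p hp
      refine if_neg ?_
      rintro ⟨h1, h2⟩
      apply hp
      refine ⟨p.1 - (n + 1), ?_⟩
      refine Prod.ext ?_ ?_
      · show n + 1 + (p.1 - (n + 1)) = p.1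
        omega
      · show n + 1 + (p.1 - (n + 1)) = p.2
        omega
  have hP3 : HasSum P3 (if n = 0 then 0 else L (n - 1) * C (n - 1) * x (n - 1) ^ 2) := by
    by_cases h0 : n = 0
    · rw [if_pos h0]
      refine hasSum_zero.congr_fun ?_
      intro p
      refine (if_neg ?_)
      rintro ⟨_, h⟩
      omega
    · rw [if_neg h0]
      have h1 : HasSum P3 (P3 (n - 1, n - 1)) := by
        refine hasSum_single _ fun p hp => ?_
        refine if_neg ?_
        rintro ⟨h1, h2⟩
        apply hp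
        refine Prod.ext ?_ ?_
        · show p.1 = n - 1
          omega
        · show p.2 = n - 1
          omega
      have e : P3 (n - 1, n - 1) = L (n - 1) * C (n - 1) * x (n - 1) ^ 2 := by
        show (if n - 1 = n - 1 ∧ n = n - 1 + 1 then _ else _) = _
        rw [if_pos ⟨rfl, by omega⟩]
        ring
      rwa [e] at h1
  have hP4 : HasSum P4 (-(L n * C n * x n * x (n + 1))) := by
    have h1 : HasSum P4 (P4 (n, n + 1)) := by
      refine hasSum_single _ fun p hp => ?_
      refine if_neg ?_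
      rintro ⟨h1, h2⟩
      exact hp (Prod.ext h1 h2)
    have e : P4 (n, n + 1) = -(L n * C n * x n * x (n + 1)) := by
      show (if n = n ∧ n + 1 = n + 1 then _ else _) = _
      rw [if_pos ⟨rfl, rfl⟩]
      ring
    rwa [e] at h1
  have hsum := ((hP1.add hP2).add hP3).add hP4
  have hfun : (fun p : ℕ × ℕ => c (Sum.inl n) (Sum.inl p.1) (Sum.inl p.2) * z (Sum.inl p.1) *
      z (Sum.inl p.2)) = fun p => P1 p + P2 p + P3 p + P4 p := by
    funext p
    rw [hK.tab]
    simp only [P1, P2, P3, P4, hxd]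
    split_ifs <;> ring
  rw [hfun, hsum.tsum_eq]
  unfold vf3
  rw [Finset.mul_sum]
  have e : ∑ j ∈ Finset.range n, L j * B j n * x n * x j = ∑ i ∈ Finset.range n, x n * (L i * B i n * x i) :=
    Finset.sum_congr rfl fun j _ => by ring
  rw [e]
  ring

/-! ### Sums over pairs -/

theorem fin_sum {J : Type} {A : J → ℝ} (hA : ∀ w, 0 ≤ A w) (s : J → Finset ℕ)
    (hs : Summable fun w => ((s w).card : ℝ) * A w) :
    Summable (fun p : J × ℕ => if p.2 ∈ s p.1 then A p.1 else 0) ∧
    ∑' p : J × ℕ, (if p.2 ∈ s p.1 then A p.1 else 0) = ∑' w, ((s w).card : ℝ) * A w := by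
  classical
  have h0 : ∀ w, ∀ i ∉ s w, (if i ∈ s w then A w else 0) = 0 := fun w i hi => if_neg hi
  have h1 : ∀ w, HasSum (fun i => if i ∈ s w then A w else 0) (((s w).card : ℝ) * A w) := by
    intro w
    have h2 : HasSum (fun i => if i ∈ s w then A w else 0) (∑ i ∈ s w, if i ∈ s w then A w else 0) :=
      hasSum_sum_of_ne_finset_zero (h0 w)
    have e : ∑ i ∈ s w, (if i ∈ s w then A w else 0) = ((s w).card : ℝ) * A w := by
      rw [← nsmul_eq_mul, ← Finset.sum_const]
      exact Finset.sum_congr rfl fun i hi => if_pos hi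
    rwa [e] at h2
  have h3 : Summable (fun p : J × ℕ => if p.2 ∈ s p.1 then A p.1 else 0) := by
    rw [summable_prod_of_nonneg]
    · refine ⟨fun w => (h1 w).summable, ?_⟩
      refine hs.congr fun w => ?_
      exact ((h1 w).tsum_eq).symm
    · intro p
      show (0 : ℝ) ≤ if p.2 ∈ s p.1 then A p.1 else 0
      split_ifs
      · exact hA _
      · exact le_rfl
  refine ⟨h3, ?_⟩
  rw [h3.tsum_prod]
  exact tsum_congr fun w => (h1 w).tsum_eq

end Pool.Agent.Y494.ND
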