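import Pool.Agent.Y494.ND.Pert1

/-!
Job S_PERT of the project NS/D: the perturbation of the main modes.
-/

open Set Filter Topology

set_option autoImplicit false
set_option linter.all false

namespace Pool.Agent.Y494.ND

open Pool.Agent.Y5.D

variable {J : Type} {g : J → ℕ} {lm L C ℓ M S φ ψ : ℕ → ℝ} {B : ℕ → ℕ → ℝ}
  {c : Ix J → Ix J → Ix J → ℝ}

/-- the choice of the damping -/
structure SS (M S φ ψ : ℕ → ℝ) : Prop where
  one : ∀ m, 1 ≤ S m
  φ_pos : ∀ m, 0 < φ m
  ψ_pos : ∀ m, 0 < ψ m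
  ψ_le : ∀ n m, n ≤ m + 2 → ψ m ≤ φ n
  k1 : ∀ m : ℕ, 2 ^ (m + 4) * M (m + 2) ^ 4 * ((m : ℝ) + 5) ≤ S m
  k2 : ∀ m : ℕ, 2 ^ (m + 4) * M (m + 2) ^ 4 * ((m : ℝ) + 5) ≤ S m * ψ m

/-- existence of the choice -/
theorem SS_exists (M φ : ℕ → ℝ) (hφ : ∀ n, 0 < φ n) (hM : ∀ n, 1 ≤ M n) :
    ∃ (S₀ ψ : ℕ → ℝ), ∀ S : ℕ → ℝ, (∀ n, S₀ n ≤ S n) → (∀ n, 1 ≤ S n) → SS M S φ ψ := by
  have hne : ∀ m : ℕ, (Finset.range (m + 3)).Nonempty := fun m => ⟨0, Finset.mem_range.2 (by omega)⟩
  let ψ : ℕ → ℝ := fun m => (Finset.range (m + 3)).inf' (hne m) φ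
  have hψ : ∀ m, 0 < ψ m := by
    intro m
    refine (Finset.lt_inf'_iff (hne m)).2 ?_
    intro n _
    exact hφ n
  refine ⟨fun m => 2 ^ (m + 4) * M (m + 2) ^ 4 * ((m : ℝ) + 5) * (1 + (ψ m)⁻¹), ψ, ?_⟩
  intro S hS hS1
  have hpos : ∀ m : ℕ, 0 ≤ 2 ^ (m + 4) * M (m + 2) ^ 4 * ((m : ℝ) + 5) := by
    intro m
    have := hM (m + 2)
    positivity
  refine ⟨hS1, hφ, hψ, ?_, ?_, ?_⟩
  · intro n m hnm
    exact Finset.inf'_le φ (Finset.mem_range.2 (by omega))
  · intro m
    refine le_trans ?_ (hS m)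
    have h1 : 0 ≤ (ψ m)⁻¹ := (inv_pos.2 (hψ m)).le
    have h2 := mul_nonneg (hpos m) h1
    linarith
  · intro m
    have h1 := mul_le_mul_of_nonneg_right (hS m) (hψ m).le
    refine le_trans ?_ h1
    have h2 : 2 ^ (m + 4) * M (m + 2) ^ 4 * ((m : ℝ) + 5) * (1 + (ψ m)⁻¹) * ψ m =
        2 ^ (m + 4) * M (m + 2) ^ 4 * ((m : ℝ) + 5) * ψ m +
        2 ^ (m + 4) * M (m + 2) ^ 4 * ((m : ℝ) + 5) := by
      have := (hψ m).ne'
      field_simp
    rw [h2]
    have h3 := mul_nonneg (hpos m) (hψ m).le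
    linarith

/-- the first function -/
noncomputable def h0 (M S : ℕ → ℝ) (m : ℕ) : ℝ := M m / S m
/-- the second function -/
noncomputable def h1 (M S : ℕ → ℝ) (m : ℕ) : ℝ := M m * (M m / S m)
/-- the third function -/
noncomputable def h2 (M S : ℕ → ℝ) (n m : ℕ) : ℝ := if n ≤ m + 2 then M (m + 2) * (M m / S m) else 0

theorem quo {P Y S t Q : ℝ} (hP : 0 < P) (hS : 0 < S) (hQ : Q ≤ Y) (h : P * Y ≤ S * t) :
    Q / S ≤ t * P⁻¹ := by
  rw [div_le_iff₀ hS]
  have h1 : P * Q ≤ S * t := (mul_le_mul_of_nonneg_left hQ hP.le).trans h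
  calc Q = P⁻¹ * (P * Q) := by rw [← mul_assoc, inv_mul_cancel₀ hP.ne', one_mul]
    _ ≤ P⁻¹ * (S * t) := by gcongr
    _ = _ := by ring

theorem half_pow (m : ℕ) : ((1 : ℝ) / 2) ^ (m + 4) = (2 ^ (m + 4))⁻¹ := by
  rw [one_div, inv_pow]

theorem a0 (hs : Seq lm L C ℓ M B) (hS : SS M S φ ψ) (m : ℕ) :
    M m * h0 M S m ≤ (1 / 2) ^ (m + 4) := by
  have hM := hs.M_one m
  have hmm : M m ≤ M (m + 2) := M_mono' hs (by omega)
  have hSp : 0 < S m := lt_of_lt_of_le one_pos (hS.one m)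
  have hm : (0 : ℝ) ≤ m := Nat.cast_nonneg m
  unfold h0
  rw [mul_div_assoc', half_pow, ← one_mul ((2 : ℝ) ^ (m + 4))⁻¹]
  refine quo (Y := M (m + 2) ^ 4 * ((m : ℝ) + 5)) (by positivity) hSp ?_ ?_
  · have hX := hs.M_one (m + 2)
    calc M m * M m ≤ M (m + 2) * M (m + 2) := by gcongr
      _ ≤ M (m + 2) ^ 4 * 1 := by nlinarith [pow_le_pow_right₀ (hs.M_one (m + 2)) (show 2 ≤ 4 by norm_num)]
      _ ≤ M (m + 2) ^ 4 * ((m : ℝ) + 5) := by gcongr; linarith
  · rw [mul_one, ← mul_assoc]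
    exact hS.k1 m

theorem a1 (hs : Seq lm L C ℓ M B) (hS : SS M S φ ψ) (m : ℕ) :
    M m * h1 M S m ≤ φ 0 * (1 / 2) ^ (m + 4) := by
  have hM := hs.M_one m
  have hmm : M m ≤ M (m + 2) := M_mono' hs (by omega)
  have hSp : 0 < S m := lt_of_lt_of_le one_pos (hS.one m)
  have hm : (0 : ℝ) ≤ m := Nat.cast_nonneg m
  unfold h1
  rw [mul_div_assoc', mul_div_assoc', half_pow]
  refine (quo (P := 2 ^ (m + 4)) (Y := M (m + 2) ^ 4 * ((m : ℝ) + 5)) (t := ψ m) (by positivity)
    hSp ?_ ?_).trans ?_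
  · have hX := hs.M_one (m + 2)
    calc M m * (M m * M m) ≤ M (m + 2) * (M (m + 2) * M (m + 2)) := by gcongr
      _ ≤ M (m + 2) ^ 4 * 1 := by nlinarith [pow_le_pow_right₀ (hs.M_one (m + 2)) (show 3 ≤ 4 by norm_num)]
      _ ≤ M (m + 2) ^ 4 * ((m : ℝ) + 5) := by gcongr; linarith
  · rw [← mul_assoc]
    exact hS.k2 m
  · gcongr
    exact hS.ψ_le 0 m (by omega)

theorem a2 (hs : Seq lm L C ℓ M B) (hS : SS M S φ ψ) (n m : ℕ) :
    M m * (((m : ℝ) + 4) * h2 M S n m) ≤ φ n * (1 / 2) ^ (m + 4) := by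
  have hM := hs.M_one m
  have hmm : M m ≤ M (m + 2) := M_mono' hs (by omega)
  have hSp : 0 < S m := lt_of_lt_of_le one_pos (hS.one m)
  have hm : (0 : ℝ) ≤ m := Nat.cast_nonneg m
  unfold h2
  split_ifs with hnm
  · rw [mul_div_assoc', mul_div_assoc', mul_div_assoc', half_pow]
    refine (quo (P := 2 ^ (m + 4)) (Y := M (m + 2) ^ 4 * ((m : ℝ) + 5)) (t := ψ m) (by positivity)
      hSp ?_ ?_).trans ?_
    · have h3 : 1 ≤ M (m + 2) := hs.M_one (m + 2)
      calc M m * (((m : ℝ) + 4) * (M (m + 2) * M m))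
          ≤ M (m + 2) * (((m : ℝ) + 5) * (M (m + 2) * M (m + 2))) := by
            gcongr
            norm_num
        _ = M (m + 2) ^ 3 * ((m : ℝ) + 5) := by ring
        _ ≤ M (m + 2) ^ 4 * ((m : ℝ) + 5) := by
            gcongr
            norm_num
    · rw [← mul_assoc]
      exact hS.k2 m
    · gcongr
      exact hS.ψ_le n m hnm
  · rw [mul_zero, mul_zero]
    have := (hS.φ_pos n).le
    positivity

theorem geo_sum : Summable (fun m : ℕ => ((1 : ℝ) / 2) ^ (m + 4)) ∧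
    ∑' m : ℕ, ((1 : ℝ) / 2) ^ (m + 4) = 1 / 8 := by
  have h1 : (fun m : ℕ => ((1 : ℝ) / 2) ^ (m + 4)) = fun m => (1 / 2) ^ m * (1 / 16) := by
    funext m
    rw [pow_add]
    norm_num
  rw [h1]
  refine ⟨summable_geometric_two.mul_right _, ?_⟩
  rw [tsum_mul_right, tsum_geometric_two]
  norm_num

theorem h0_nonneg (hs : Seq lm L C ℓ M B) (hS : SS M S φ ψ) (m : ℕ) : 0 ≤ h0 M S m := by
  have h3 := hs.M_one m
  have h4 := hS.one m
  unfold h0
  positivity

theorem h1_nonneg (hs : Seq lm L C ℓ M B) (hS : SS M S φ ψ) (m : ℕ) : 0 ≤ h1 M S m := by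
  have h3 := hs.M_one m
  have h4 := hS.one m
  unfold h1
  positivity

theorem h2_nonneg (hs : Seq lm L C ℓ M B) (hS : SS M S φ ψ) (n m : ℕ) : 0 ≤ h2 M S n m := by
  have h3 := hs.M_one m
  have h4 := hS.one m
  have h5 := hs.M_one (m + 2)
  unfold h2
  split_ifs
  · positivity
  · exact le_rfl

theorem grp' (hK : Kern g L C B M c) (hs : Seq lm L C ℓ M B) {h : ℕ → ℝ} {t : ℝ} (h0 : ∀ m, 0 ≤ h m)
    (hb : ∀ m, M m * h m ≤ t * (1 / 2) ^ (m + 4)) :
    Summable (fun j => h (g j)) ∧ ∑' j, h (g j) ≤ t / 8 := by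
  have h3 : Summable fun m => M m * h m := Summable.of_nonneg_of_le
    (fun m => mul_nonneg (zero_le_one.trans (hs.M_one m)) (h0 m)) hb (geo_sum.1.mul_left t)
  obtain ⟨h4, h5⟩ := grp_sum hK.fin hK.card h0 h3
  refine ⟨h4, h5.trans ?_⟩
  refine (h3.tsum_le_tsum hb (geo_sum.1.mul_left t)).trans ?_
  rw [tsum_mul_left, geo_sum.2]
  exact le_of_eq (by ring)

/-- the bound of the perturbation -/
theorem f_bound (hK : Kern g L C B M c) (hs : Seq lm L C ℓ M B) (hS : SS M S φ ψ) {z : Ix J → ℝ}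
    (hz1 : ∀ i, |z (Sum.inl i)| ≤ 1) (hz2 : ∀ w, |z (Sum.inr w)| ≤ h0 M S (g w)) (n : ℕ)
    (hG : Summable fun p : Ix J × Ix J => c (Sum.inl n) p.1 p.2 * z p.1 * z p.2)
    (hx : Summable fun i : ℕ => z (Sum.inl i) ^ 2) :
    |qd c z (Sum.inl n) - (vf3 L C ℓ B (fun m => z (Sum.inl m)) n + ℓ n * z (Sum.inl n))| ≤
      φ 0 * |z (Sum.inl n)| + φ n := by
  classical
  obtain ⟨s1, s2, s3, s4, hsplit⟩ := split4 hG
  have htab := tab_sum hK hs hx n
  have e0 : qd c z (Sum.inl n) - (vf3 L C ℓ B (fun m => z (Sum.inl m)) n + ℓ n * z (Sum.inl n)) =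
      ∑' p : ℕ × J, c (Sum.inl n) (Sum.inl p.1) (Sum.inr p.2) * z (Sum.inl p.1) * z (Sum.inr p.2) +
      (∑' p : J × ℕ, c (Sum.inl n) (Sum.inr p.1) (Sum.inl p.2) * z (Sum.inr p.1) * z (Sum.inl p.2) +
      ∑' p : J × J, c (Sum.inl n) (Sum.inr p.1) (Sum.inr p.2) * z (Sum.inr p.1) * z (Sum.inr p.2)) := by
    unfold qd
    rw [hsplit, ← htab]
    ring
  rw [e0]
  -- the group sums
  have g0 := grp' hK hs (h := h0 M S) (t := 1) (h0_nonneg hs hS) (fun m => by
    rw [one_mul]; exact a0 hs hS m)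
  have g1 := grp' hK hs (h := h1 M S) (t := φ 0) (h1_nonneg hs hS) (a1 hs hS)
  have g2 := grp' hK hs (h := fun m => ((m : ℝ) + 4) * h2 M S n m) (t := φ n)
    (fun m => mul_nonneg (by positivity) (h2_nonneg hs hS n m)) (a2 hs hS n)
  have g2' : Summable (fun w => h2 M S n (g w)) ∧ ∑' w, h2 M S n (g w) ≤ φ n / 8 := by
    have hb : ∀ w, h2 M S n (g w) ≤ ((g w : ℝ) + 4) * h2 M S n (g w) := by
      intro w
      have h3 := h2_nonneg hs hS n (g w)
      have h4 : (0 : ℝ) ≤ g w := Nat.cast_nonneg _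
      nlinarith
    have h3 : Summable (fun w => h2 M S n (g w)) :=
      Summable.of_nonneg_of_le (fun w => h2_nonneg hs hS n (g w)) hb g2.1
    exact ⟨h3, (h3.tsum_le_tsum hb g2.1).trans g2.2⟩
  -- kernel facts
  have hMn : ∀ w, n ≤ g w + 2 → M n ≤ M (g w + 2) := fun w h => M_mono' hs h
  have hMpos : ∀ m, 0 ≤ M m := fun m => zero_le_one.trans (hs.M_one m)
  have hh0 := h0_nonneg hs hS
  have hh1 := h1_nonneg hs hS
  have hh2 := h2_nonneg hs hS n
  have hh2v : ∀ w, n ≤ g w + 2 → h2 M S n (g w) = M (g w + 2) * h0 M S (g w) := by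
    intro w h
    unfold h2 h0
    rw [if_pos h]
  -- first block
  have t1 : |∑' p : ℕ × J, c (Sum.inl n) (Sum.inl p.1) (Sum.inr p.2) * z (Sum.inl p.1) *
      z (Sum.inr p.2)| ≤ φ 0 / 8 * |z (Sum.inl n)| + φ n / 8 := by
    have u1 := fin_sum (A := fun w => |z (Sum.inl n)| * h1 M S (g w))
      (fun w => mul_nonneg (abs_nonneg _) (hh1 _)) (fun _ => ({n} : Finset ℕ)) (by
        simp only [Finset.card_singleton, Nat.cast_one, one_mul]
        exact g1.1.mul_left _)
    have u2 := fin_sum (A := fun w => h2 M S n (g w)) (fun w => hh2 _)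
      (fun w => Finset.range (g w + 4)) (by
        simp only [Finset.card_range, Nat.cast_add, Nat.cast_ofNat]
        exact g2.1)
    have hb : ∀ p : J × ℕ, ‖c (Sum.inl n) (Sum.inl p.2) (Sum.inr p.1) * z (Sum.inl p.2) *
        z (Sum.inr p.1)‖ ≤ (if p.2 ∈ ({n} : Finset ℕ) then |z (Sum.inl n)| * h1 M S (g p.1) else 0) +
        (if p.2 ∈ Finset.range (g p.1 + 4) then h2 M S n (g p.1) else 0) := by
      rintro ⟨w, i⟩
      simp only [Finset.mem_singleton, Finset.mem_range]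
      rw [Real.norm_eq_abs, abs_mul, abs_mul]
      by_cases hi : i = n
      · subst hi
        rw [if_pos rfl]
        have h3 := hK.low i w
        have h4 : |c (Sum.inl i) (Sum.inl i) (Sum.inr w)| * |z (Sum.inl i)| * |z (Sum.inr w)| ≤
            |z (Sum.inl i)| * h1 M S (g w) := by
          calc |c (Sum.inl i) (Sum.inl i) (Sum.inr w)| * |z (Sum.inl i)| * |z (Sum.inr w)|
              ≤ M (g w) * |z (Sum.inl i)| * h0 M S (g w) := by
                refine mul_le_mul ?_ (hz2 w) (abs_nonneg _) (mul_nonneg (hMpos _) (abs_nonneg _))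
                exact mul_le_mul_of_nonneg_right h3 (abs_nonneg _)
            _ = |z (Sum.inl i)| * h1 M S (g w) := by unfold h1 h0; ring
        have h5 : (0 : ℝ) ≤ if i < g w + 4 then h2 M S i (g w) else 0 := by
          split_ifs
          · exact hh2 _
          · exact le_rfl
        linarith
      · rw [if_neg hi, zero_add]
        by_cases hc : c (Sum.inl n) (Sum.inl i) (Sum.inr w) = 0
        · rw [hc, abs_zero, zero_mul, zero_mul]
          split_ifs
          · exact hh2 _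
          · exact le_rfl
        · have h3 : n ≤ g w + 2 := by
            by_contra hcon
            have h4 := hK.sep n (Sum.inl i) (Sum.inr w) hc (fun w' h => by cases h)
              (fun w' h => by
                rw [← Sum.inr.inj h]
                omega) (Or.inr ⟨w, rfl⟩)
            exact hi (Sum.inl.inj h4)
          have h4 := (hK.near _ _ _ hc).2.1
          have h5 : i < g w + 4 := by
            simp only [gr] at h4
            omega
          rw [if_pos h5, hh2v w h3]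
          calc |c (Sum.inl n) (Sum.inl i) (Sum.inr w)| * |z (Sum.inl i)| * |z (Sum.inr w)|
              ≤ M (g w + 2) * 1 * h0 M S (g w) := by
                refine mul_le_mul ?_ (hz2 w) (abs_nonneg _) (mul_nonneg (hMpos _) zero_le_one)
                exact mul_le_mul ((hK.size _ _ _).trans (hMn w h3)) (hz1 i) (abs_nonneg _) (hMpos _)
            _ = _ := by ring
    have e1 := (Equiv.prodComm J ℕ).tsum_eq (fun p : ℕ × J =>
      c (Sum.inl n) (Sum.inl p.1) (Sum.inr p.2) * z (Sum.inl p.1) * z (Sum.inr p.2))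
    rw [← e1]
    have h3 := tsum_of_norm_bounded (u1.1.add u2.1).hasSum hb
    rw [u1.1.tsum_add u2.1, u1.2, u2.2] at h3
    simp only [Finset.card_singleton, Nat.cast_one, one_mul, Finset.card_range, Nat.cast_add,
      Nat.cast_ofNat] at h3
    rw [tsum_mul_left] at h3
    have h4 : |z (Sum.inl n)| * ∑' w, h1 M S (g w) ≤ |z (Sum.inl n)| * (φ 0 / 8) :=
      mul_le_mul_of_nonneg_left g1.2 (abs_nonneg _)
    have h5 := g2.2
    refine (le_trans (le_of_eq rfl) h3).trans ?_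
    linarith
  -- second block
  have t2 : |∑' p : J × ℕ, c (Sum.inl n) (Sum.inr p.1) (Sum.inl p.2) * z (Sum.inr p.1) *
      z (Sum.inl p.2)| ≤ φ n / 8 := by
    have u2 := fin_sum (A := fun w => h2 M S n (g w)) (fun w => hh2 _)
      (fun w => Finset.range (g w + 4)) (by
        simp only [Finset.card_range, Nat.cast_add, Nat.cast_ofNat]
        exact g2.1)
    have hb : ∀ p : J × ℕ, ‖c (Sum.inl n) (Sum.inr p.1) (Sum.inl p.2) * z (Sum.inr p.1) *
        z (Sum.inl p.2)‖ ≤ (if p.2 ∈ Finset.range (g p.1 + 4) then h2 M S n (g p.1) else 0) := by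
      rintro ⟨w, i⟩
      simp only [Finset.mem_range]
      rw [Real.norm_eq_abs, abs_mul, abs_mul]
      by_cases hc : c (Sum.inl n) (Sum.inr w) (Sum.inl i) = 0
      · rw [hc, abs_zero, zero_mul, zero_mul]
        split_ifs
        · exact hh2 _
        · exact le_rfl
      · have h3 : n ≤ g w + 2 := by
          by_contra hcon
          have h4 := hK.sep n (Sum.inr w) (Sum.inl i) hc (fun w' h => by
              rw [← Sum.inr.inj h]
              omega) (fun w' h => by cases h) (Or.inl ⟨w, rfl⟩)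
          cases h4
        have h4 := (hK.near _ _ _ hc).2.2
        have h5 : i < g w + 4 := by
          simp only [gr] at h4
          omega
        rw [if_pos h5, hh2v w h3]
        calc |c (Sum.inl n) (Sum.inr w) (Sum.inl i)| * |z (Sum.inr w)| * |z (Sum.inl i)|
            ≤ M (g w + 2) * h0 M S (g w) * 1 := by
              refine mul_le_mul ?_ (hz1 i) (abs_nonneg _) (mul_nonneg (hMpos _) (hh0 _))
              exact mul_le_mul ((hK.size _ _ _).trans (hMn w h3)) (hz2 w) (abs_nonneg _) (hMpos _)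
          _ = _ := by ring
    have h3 := tsum_of_norm_bounded u2.1.hasSum hb
    rw [u2.2] at h3
    simp only [Finset.card_range, Nat.cast_add, Nat.cast_ofNat] at h3
    exact h3.trans g2.2
  -- third block
  have t3 : |∑' p : J × J, c (Sum.inl n) (Sum.inr p.1) (Sum.inr p.2) * z (Sum.inr p.1) *
      z (Sum.inr p.2)| ≤ φ n / 8 := by
    have v1 := g2'.1.mul_of_nonneg g0.1 (fun w => hh2 _) (fun w => hh0 _)
    have v2 := g0.1.mul_of_nonneg g2'.1 (fun w => hh0 _) (fun w => hh2 _)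
    have hb : ∀ p : J × J, ‖c (Sum.inl n) (Sum.inr p.1) (Sum.inr p.2) * z (Sum.inr p.1) *
        z (Sum.inr p.2)‖ ≤ h2 M S n (g p.1) * h0 M S (g p.2) + h0 M S (g p.1) * h2 M S n (g p.2) := by
      rintro ⟨w, w'⟩
      simp only
      rw [Real.norm_eq_abs, abs_mul, abs_mul]
      have q1 : 0 ≤ h2 M S n (g w) * h0 M S (g w') := mul_nonneg (hh2 _) (hh0 _)
      have q2 : 0 ≤ h0 M S (g w) * h2 M S n (g w') := mul_nonneg (hh0 _) (hh2 _)
      by_cases hc : c (Sum.inl n) (Sum.inr w) (Sum.inr w') = 0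
      · rw [hc, abs_zero, zero_mul, zero_mul]
        linarith
      · have hzz : |z (Sum.inr w)| * |z (Sum.inr w')| ≤ h0 M S (g w) * h0 M S (g w') :=
          mul_le_mul (hz2 w) (hz2 w') (abs_nonneg _) (hh0 _)
        have h3 : n ≤ g w + 2 ∨ n ≤ g w' + 2 := by
          by_contra hcon
          push Not at hcon
          have h4 := hK.sep n (Sum.inr w) (Sum.inr w') hc (fun w'' h => by
              rw [← Sum.inr.inj h]
              omega) (fun w'' h => by
              rw [← Sum.inr.inj h]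
              omega) (Or.inl ⟨w, rfl⟩)
          cases h4
        rcases h3 with h3 | h3
        · have h4 : |c (Sum.inl n) (Sum.inr w) (Sum.inr w')| * |z (Sum.inr w)| * |z (Sum.inr w')| ≤
              h2 M S n (g w) * h0 M S (g w') := by
            rw [hh2v w h3, mul_assoc, mul_assoc]
            exact mul_le_mul ((hK.size _ _ _).trans (hMn w h3)) hzz (by positivity) (hMpos _)
          linarith
        · have h4 : |c (Sum.inl n) (Sum.inr w) (Sum.inr w')| * |z (Sum.inr w)| * |z (Sum.inr w')| ≤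
              h0 M S (g w) * h2 M S n (g w') := by
            rw [hh2v w' h3, mul_assoc]
            have h5 : |c (Sum.inl n) (Sum.inr w) (Sum.inr w')| * (|z (Sum.inr w)| * |z (Sum.inr w')|) ≤
                M (g w' + 2) * (h0 M S (g w) * h0 M S (g w')) :=
              mul_le_mul ((hK.size _ _ _).trans (hMn w' h3)) hzz (by positivity) (hMpos _)
            linarith
          linarith
    have h3 := tsum_of_norm_bounded (v1.add v2).hasSum hb
    rw [v1.tsum_add v2] at h3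
    have e1 : ∑' p : J × J, h2 M S n (g p.1) * h0 M S (g p.2) =
        (∑' w, h2 M S n (g w)) * ∑' w, h0 M S (g w) := by
      rw [Summable.tsum_mul_tsum g2'.1 g0.1 v1]
    have e2 : ∑' p : J × J, h0 M S (g p.1) * h2 M S n (g p.2) =
        (∑' w, h0 M S (g w)) * ∑' w, h2 M S n (g w) := by
      rw [Summable.tsum_mul_tsum g0.1 g2'.1 v2]
    rw [e1, e2] at h3
    have h4 : 0 ≤ ∑' w, h0 M S (g w) := tsum_nonneg fun w => hh0 _
    have h5 : 0 ≤ ∑' w, h2 M S n (g w) := tsum_nonneg fun w => hh2 _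
    have h6 := g0.2
    have h7 := g2'.2
    have h8 : (∑' w, h2 M S n (g w)) * ∑' w, h0 M S (g w) ≤ φ n / 8 * (1 / 8) :=
      mul_le_mul h7 h6 h4 (by have := (hS.φ_pos n).le; positivity)
    refine (le_trans (le_of_eq rfl) h3).trans ?_
    have h9 := hS.φ_pos n
    nlinarith
  have h9 := hS.φ_pos n
  have h10 := hS.φ_pos 0
  have h11 := abs_nonneg (z (Sum.inl n))
  refine (abs_add_le _ _).trans ?_
  refine (add_le_add le_rfl (abs_add_le _ _)).trans ?_
  nlinarith [mul_nonneg h10.le h11]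

end Pool.Agent.Y494.ND
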